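import Pool.Agent.Y851.DK.Stm

/-! Project DK (helper851), second part: statements for the equation `a p - b q = m`. -/

set_option autoImplicit false

namespace Pool.Agent.Y851.DK

open Finset Filter

/-- the number of solutions of `a p - b q = m` in primes `p, q ≤ X` -/
noncomputable def RR (X : ℝ) (a b : ℕ) (m : ℤ) : ℕ :=
  ((Icc 1 ⌊X⌋₊ ×ˢ Icc 1 ⌊X⌋₊).filter (fun x : ℕ × ℕ => x.1.Prime ∧ x.2.Prime ∧ (a : ℤ) * (x.1 : ℤ) - (b : ℤ) * (x.2 : ℤ) = m)).card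

/-- DK-SOL: the sieve bound for the number of solutions -/
def P_SOL : Prop := ∀ (θ κ T : ℝ) (G : ℕ), 0 < θ → θ < 1 → 0 < κ → ∃ C : ℝ, 1 ≤ C ∧ ∀ᶠ X : ℝ in atTop, ∀ a b : ℕ, 1 ≤ a → 1 ≤ b →
  κ * X ^ θ ≤ (a : ℝ) → κ * X ^ θ ≤ (b : ℝ) → Nat.gcd a b ≤ G → sg a ≤ T → sg b ≤ T → ∀ m : ℤ, m ≠ 0 →
  (RR X a b m : ℝ) ≤ C * Real.exp (C * sg m.natAbs) * (X ^ (1 - θ) / Real.log X ^ 2)

/-- DK-GCD: few pairs have a large greatest common divisor -/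
def P_GCD : Prop := ∀ f δ : ℝ, 0 < f → 0 < δ → ∃ G : ℕ, ∀ (Q : ℝ) (A : Finset ℕ), (∀ a ∈ A, 1 ≤ a ∧ (a : ℝ) ≤ Q) → 2 / f ≤ (A.card : ℝ) →
  (δ * Q ≤ A.card ∨ ∀ a ∈ A, a.Prime) →
  (((A ×ˢ A).filter (fun x => x.1 = x.2 ∨ G < Nat.gcd x.1 x.2)).card : ℝ) ≤ f * (A.card : ℝ) ^ 2

/-- DK-MN: the mean of `exp (c sg |m|)` -/
def P_MN : Prop := ∀ c η : ℝ, 0 < c → 0 < η → ∃ C : ℝ, 1 ≤ C ∧ ∀ᶠ X : ℝ in atTop, ∀ M : ℕ, X ^ η ≤ M → (M : ℝ) ≤ X →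
  ∑ m ∈ (Icc (-(M : ℤ)) (M : ℤ)).filter (fun m => m ≠ 0), Real.exp (c * sg m.natAbs) ≤ C * M

end Pool.Agent.Y851.DK
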