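import Pool.Agent.Y851.PT.P9

/-! Products of bounded functions with small cut norm. -/

set_option autoImplicit false

namespace Pool.Agent.Y851.DK

open Finset
open Pool.Agent.Y851.PS

theorem prod_cut {α β : Type} (C : Finset α) (A : Finset β) (W : α → β → ℝ) (L ε : ℝ) (hL : 1 ≤ L) (hε : 0 ≤ ε)
    (hW : ∀ c ∈ C, ∀ a ∈ A, 0 ≤ W c a ∧ W c a ≤ L) (h : Cut C A W ε) (k : ℕ) :
    ∑ y ∈ Fintype.piFinset (fun _ : Fin k => A), |∑ c ∈ C, ∏ j, W c (y j) - C.card| ≤
      2 * k * L ^ k * ε * (C.card * (A.card : ℝ) ^ k) := by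
  have hL0 : 0 < L := by linarith only [hL]
  induction k with
  | zero => simp
  | succ n ih =>
    rw [sum_cons]
    have key : ∀ y ∈ Fintype.piFinset (fun _ : Fin n => A), ∑ a ∈ A, |∑ c ∈ C, ∏ j, W c ((Fin.cons a y : Fin (n + 1) → β) j) - C.card| ≤
        2 * L ^ n * (ε * (C.card * A.card)) + A.card * |∑ c ∈ C, ∏ j, W c (y j) - C.card| := by
      intro y hy
      rw [Fintype.mem_piFinset] at hy
      have h1 := cut_abs h (fun c => ∏ j, W c (y j)) (L ^ n) (by positivity)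
        (fun c hc => prod_nonneg fun j _ => (hW c hc _ (hy j)).1)
        (fun c hc => by
          calc ∏ j, W c (y j) ≤ ∏ _j : Fin n, L := prod_le_prod (fun j _ => (hW c hc _ (hy j)).1) (fun j _ => (hW c hc _ (hy j)).2)
            _ = L ^ n := by rw [prod_const, Finset.card_univ, Fintype.card_fin])
      have h2 : ∀ a ∈ A, |∑ c ∈ C, ∏ j, W c ((Fin.cons a y : Fin (n + 1) → β) j) - C.card| ≤
          |∑ c ∈ C, (∏ j, W c (y j)) * (W c a - 1)| + |∑ c ∈ C, ∏ j, W c (y j) - C.card| := by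
        intro a _
        have e : ∑ c ∈ C, ∏ j, W c ((Fin.cons a y : Fin (n + 1) → β) j) - (C.card : ℝ) =
            ∑ c ∈ C, (∏ j, W c (y j)) * (W c a - 1) + (∑ c ∈ C, ∏ j, W c (y j) - C.card) := by
          have : ∑ c ∈ C, ∏ j, W c ((Fin.cons a y : Fin (n + 1) → β) j) =
              ∑ c ∈ C, (∏ j, W c (y j)) * (W c a - 1) + ∑ c ∈ C, ∏ j, W c (y j) := by
            rw [← sum_add_distrib]
            apply sum_congr rfl
            intro c _
            rw [Fin.prod_univ_succ]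
            simp only [Fin.cons_zero, Fin.cons_succ]
            ring
          rw [this]
          ring
        rw [e]
        exact abs_add_le _ _
      refine (sum_le_sum h2).trans ?_
      rw [sum_add_distrib, sum_const, nsmul_eq_mul]
      linarith only [h1]
    refine (sum_le_sum key).trans ?_
    rw [sum_add_distrib, sum_const, nsmul_eq_mul, ← mul_sum, Fintype.card_piFinset, prod_const, Finset.card_univ, Fintype.card_fin]
    have hA0 : (0 : ℝ) ≤ A.card := Nat.cast_nonneg _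
    have hC0 : (0 : ℝ) ≤ C.card := Nat.cast_nonneg _
    have h3 : (A.card : ℝ) * ∑ y ∈ Fintype.piFinset (fun _ : Fin n => A), |∑ c ∈ C, ∏ j, W c (y j) - C.card| ≤
        A.card * (2 * n * L ^ n * ε * (C.card * (A.card : ℝ) ^ n)) := mul_le_mul_of_nonneg_left ih hA0
    have h4 : L ^ n ≤ L ^ (n + 1) := pow_le_pow_right₀ hL (Nat.le_succ n)
    have h5 : 0 ≤ ε * (C.card * (A.card : ℝ) ^ (n + 1)) := by positivity
    push_cast
    calc (A.card : ℝ) ^ n * (2 * L ^ n * (ε * (C.card * A.card))) + A.card * ∑ y ∈ Fintype.piFinset (fun _ : Fin n => A), |∑ c ∈ C, ∏ j, W c (y j) - C.card|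
        ≤ (A.card : ℝ) ^ n * (2 * L ^ n * (ε * (C.card * A.card))) + A.card * (2 * n * L ^ n * ε * (C.card * (A.card : ℝ) ^ n)) := by linarith only [h3]
      _ = (2 * (n + 1)) * (L ^ n * (ε * (C.card * (A.card : ℝ) ^ (n + 1)))) := by ring
      _ ≤ (2 * (n + 1)) * (L ^ (n + 1) * (ε * (C.card * (A.card : ℝ) ^ (n + 1)))) := by gcongr
      _ = _ := by ring

open Classical in
/-- for almost all tuples the mean of the product is close to one -/
theorem prod_almost {α β : Type} (C : Finset α) (A : Finset β) (W : α → β → ℝ) (L ε δ : ℝ) (hL : 1 ≤ L) (hε : 0 ≤ ε) (hδ : 0 < δ)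
    (hW : ∀ c ∈ C, ∀ a ∈ A, 0 ≤ W c a ∧ W c a ≤ L) (h : Cut C A W ε) (k : ℕ) (hk : 2 * k * L ^ k * ε ≤ δ ^ 2) :
    (((Fintype.piFinset (fun _ : Fin k => A)).filter (fun y => δ * C.card < |∑ c ∈ C, ∏ j, W c (y j) - C.card|)).card : ℝ) ≤
      δ * (A.card : ℝ) ^ k := by
  by_cases hC : C.card = 0
  · have hC' : C = ∅ := card_eq_zero.1 hC
    subst hC'
    simp only [card_empty, Nat.cast_zero, mul_zero, sum_empty, sub_zero, abs_zero, lt_self_iff_false, filter_false]
    positivity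
  · have hC0 : (0 : ℝ) < C.card := by exact_mod_cast Nat.pos_of_ne_zero hC
    have h0 := prod_cut C A W L ε hL hε hW h k
    have hA0 : (0 : ℝ) ≤ (A.card : ℝ) ^ k := by positivity
    set S := (Fintype.piFinset (fun _ : Fin k => A)).filter (fun y => δ * C.card < |∑ c ∈ C, ∏ j, W c (y j) - C.card|) with hS
    have h1 : (S.card : ℝ) * (δ * C.card) ≤ ∑ y ∈ Fintype.piFinset (fun _ : Fin k => A), |∑ c ∈ C, ∏ j, W c (y j) - C.card| := by
      calc (S.card : ℝ) * (δ * C.card) = ∑ _y ∈ S, δ * C.card := by rw [sum_const, nsmul_eq_mul]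
        _ ≤ ∑ y ∈ S, |∑ c ∈ C, ∏ j, W c (y j) - C.card| := sum_le_sum fun y hy => (mem_filter.1 hy).2.le
        _ ≤ _ := sum_le_sum_of_subset_of_nonneg (filter_subset _ _) fun _ _ _ => abs_nonneg _
    have h2 : (S.card : ℝ) * (δ * C.card) ≤ (δ * (A.card : ℝ) ^ k) * (δ * C.card) := by
      refine (h1.trans h0).trans ?_
      calc 2 * k * L ^ k * ε * (C.card * (A.card : ℝ) ^ k) ≤ δ ^ 2 * (C.card * (A.card : ℝ) ^ k) := by gcongr
        _ = _ := by ring
    exact le_of_mul_le_mul_right h2 (by positivity)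

end Pool.Agent.Y851.DK
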