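import Pool.Agent.Y851.DK.D1

/-! Dense sets are spread; the normalised counts are bounded. -/

set_option autoImplicit false

namespace Pool.Agent.Y851.DK

open Finset Filter
open Pool.Agent.Y851.PS Pool.Agent.Y851.PT

lemma bt_int : ∃ C : ℝ, 1 ≤ C ∧ ∀ (u L : ℝ) (S : Finset ℕ), 2 ≤ L → (∀ p ∈ S, p.Prime ∧ u ≤ (p : ℝ) ∧ (p : ℝ) ≤ u + L) →
    (S.card : ℝ) ≤ C * (L / Real.log L) := by
  obtain ⟨C, hC, h⟩ := Pool.Agent.Helper923.PPS.brun_titchmarsh
  refine ⟨2 * C, by linarith, fun u L S hL hS => ?_⟩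
  have hlog : 0 < Real.log L := Real.log_pos (by linarith)
  have h1 := h ⌈u⌉₊ 1 (⌊L⌋₊ + 2) (by omega) (Or.inl rfl)
  have hfl : (⌊L⌋₊ : ℝ) ≤ L := Nat.floor_le (by linarith)
  have hfl2 : L < ⌊L⌋₊ + 1 := Nat.lt_floor_add_one L
  have h2 : (S.card : ℝ) ≤ ((Finset.range (⌊L⌋₊ + 2)).filter (fun k => (⌈u⌉₊ + k * 1).Prime)).card := by
    apply Nat.cast_le.2
    apply card_le_card_of_injOn (fun p => p - ⌈u⌉₊)
    · intro p hp
      obtain ⟨hp1, hp2, hp3⟩ := hS p hp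
      have ha : ⌈u⌉₊ ≤ p := Nat.ceil_le.2 hp2
      have hle : ((p - ⌈u⌉₊ : ℕ) : ℝ) ≤ L := by
        rw [Nat.cast_sub ha]
        rcases le_total 0 u with hu | hu
        · have := Nat.le_ceil u
          linarith
        · have h0 : (0 : ℝ) ≤ (⌈u⌉₊ : ℝ) := Nat.cast_nonneg _
          linarith
      have hle2 : p - ⌈u⌉₊ ≤ ⌊L⌋₊ := Nat.le_floor hle
      change p - ⌈u⌉₊ ∈ ((Finset.range (⌊L⌋₊ + 2)).filter (fun k => (⌈u⌉₊ + k * 1).Prime) : Set ℕ)
      rw [mem_coe, mem_filter, mem_range]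
      refine ⟨by omega, ?_⟩
      have : ⌈u⌉₊ + (p - ⌈u⌉₊) * 1 = p := by omega
      rw [this]
      exact hp1
    · intro p hp q hq hpq
      have ha : ⌈u⌉₊ ≤ p := Nat.ceil_le.2 (hS p hp).2.1
      have hb : ⌈u⌉₊ ≤ q := Nat.ceil_le.2 (hS q hq).2.1
      simp only at hpq
      omega
  have hlog2 : Real.log L ≤ Real.log ((⌊L⌋₊ + 2 : ℕ) : ℝ) := by
    apply Real.log_le_log (by linarith)
    push_cast
    linarith
  refine (h2.trans h1).trans ?_
  rw [mul_div_assoc]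
  have h3 : (((⌊L⌋₊ + 2 : ℕ) : ℝ)) / Real.log ((⌊L⌋₊ + 2 : ℕ) : ℝ) ≤ 2 * (L / Real.log L) := by
    rw [← mul_div_assoc]
    apply div_le_div₀ (by linarith) _ hlog hlog2
    push_cast
    linarith
  calc C * ((((⌊L⌋₊ + 2 : ℕ) : ℝ)) / Real.log ((⌊L⌋₊ + 2 : ℕ) : ℝ)) ≤ C * (2 * (L / Real.log L)) :=
        mul_le_mul_of_nonneg_left h3 (by linarith)
    _ = _ := by ring

lemma ZH_bdd (η : ℝ) (hη : 0 < η) : ∃ L : ℝ, 1 ≤ L ∧ ∀ᶠ X : ℝ in atTop, ∀ x : ℝ, x ≤ X → ZH (X ^ η) x ≤ L := by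
  obtain ⟨C, hC, h⟩ := bt_int
  refine ⟨max 1 (C / η), le_max_left _ _, ?_⟩
  filter_upwards [(tendsto_rpow_atTop hη).eventually_ge_atTop 2, eventually_gt_atTop 1] with X hX1 hX2 x hx
  have hX0 : 0 < X := by linarith
  have hlog : 0 < Real.log X := Real.log_pos hX2
  by_cases hx2 : x < 2
  · have : ZH (X ^ η) x = 0 := by
      unfold ZH
      rw [PH_empty hx2]
      simp
    rw [this]
    exact zero_le_one.trans (le_max_left _ _)
  · push Not at hx2
    have hx0 : 0 ≤ x := by linarith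
    have h1 := h (x - X ^ η) (X ^ η) (PH (X ^ η) x) hX1 (by
      intro p hp
      rw [mem_PH hx0] at hp
      exact ⟨hp.1, hp.2.1.le, by linarith [hp.2.2]⟩)
    refine le_trans ?_ (le_max_right _ _)
    unfold ZH
    have hHpos : (0 : ℝ) < X ^ η := by positivity
    rw [Real.log_rpow hX0] at h1
    have hlx : Real.log x ≤ Real.log X := Real.log_le_log (by linarith) hx
    have hlx0 : 0 ≤ Real.log x := Real.log_nonneg (by linarith)
    rw [div_le_iff₀ hHpos]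
    calc ((PH (X ^ η) x).card : ℝ) * Real.log x ≤ (C * (X ^ η / (η * Real.log X))) * Real.log X :=
          mul_le_mul h1 hlx hlx0 (by positivity)
      _ = C / η * X ^ η := by field_simp

lemma card_int_le (u L : ℝ) (S : Finset ℕ) (hL : 1 ≤ L) (hS : ∀ n ∈ S, u ≤ (n : ℝ) ∧ (n : ℝ) ≤ u + L) : (S.card : ℝ) ≤ 2 * L := by
  rcases S.eq_empty_or_nonempty with h | ⟨m, hm⟩
  · rw [h]; simp; linarith
  · have hne : S.Nonempty := ⟨m, hm⟩
    set a := S.min' hne with ha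
    have ham : a ∈ S := S.min'_mem hne
    have h1 : S ⊆ Icc a (a + ⌊L⌋₊) := by
      intro n hn
      rw [mem_Icc]
      refine ⟨S.min'_le n hn, ?_⟩
      have h2 : ((n - a : ℕ) : ℝ) ≤ L := by
        rw [Nat.cast_sub (S.min'_le n hn)]
        linarith [(hS n hn).2, (hS a ham).1]
      have h3 : n - a ≤ ⌊L⌋₊ := Nat.le_floor h2
      omega
    have h2 : S.card ≤ ⌊L⌋₊ + 1 := by
      refine (card_le_card h1).trans ?_
      rw [Nat.card_Icc]
      omega
    have h3 : (S.card : ℝ) ≤ ⌊L⌋₊ + 1 := by exact_mod_cast h2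
    have := Nat.floor_le (show (0 : ℝ) ≤ L by linarith)
    linarith

/-- a dense set of integers or of primes -/
def Dn (δ Q l : ℝ) (N : Finset ℕ) : Prop := (∀ n ∈ N, 1 ≤ n ∧ (n : ℝ) ≤ Q) ∧ (δ * Q ≤ N.card ∨ ((∀ n ∈ N, n.Prime) ∧ δ * (Q / l) ≤ N.card))

lemma dense_SpH (θ η δ : ℝ) (hη : θ < η) (hδ : 0 < δ) : ∃ B : ℝ, 1 ≤ B ∧ ∀ᶠ X : ℝ in atTop, ∀ N : Finset ℕ,
    Dn δ (X ^ (1 - θ)) (Real.log X) N → SpH B (X ^ η) θ X (N.image (fun n : ℕ => (n : ℝ))) := by
  obtain ⟨C, hC, hbt⟩ := bt_int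
  have hηθ : 0 < η - θ := by linarith
  refine ⟨max 1 (max (2 / δ) (C / (δ * (η - θ)))), le_max_left _ _, ?_⟩
  filter_upwards [(tendsto_rpow_atTop hηθ).eventually_ge_atTop 2, eventually_gt_atTop 1] with X hX1 hX2 N hN
  have hX0 : 0 < X := by linarith
  have hlog : 0 < Real.log X := Real.log_pos hX2
  have hinj : Function.Injective (fun n : ℕ => (n : ℝ)) := Nat.cast_injective
  have hL : X ^ η / X ^ θ = X ^ (η - θ) := by rw [Real.rpow_sub hX0]
  have e1 : X ^ η / X * X ^ (1 - θ) = X ^ (η - θ) := by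
    rw [Real.rpow_sub hX0 1, Real.rpow_one, Real.rpow_sub hX0]
    field_simp
  have hL0 : 0 < X ^ (η - θ) := by positivity
  have hHX : 0 < X ^ η / X := by positivity
  refine ⟨?_, ?_, ?_⟩
  · intro c hc
    obtain ⟨n, hn, rfl⟩ := mem_image.1 hc
    exact_mod_cast (hN.1 n hn).1
  · intro c hc
    obtain ⟨n, hn, rfl⟩ := mem_image.1 hc
    exact (hN.1 n hn).2
  · intro u
    rw [hL, filter_image, card_image_of_injective _ hinj, card_image_of_injective _ hinj]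
    rcases hN.2 with h | ⟨h1, h2⟩
    · have hcnt := card_int_le u (X ^ (η - θ)) (N.filter (fun n : ℕ => u ≤ (n : ℝ) ∧ (n : ℝ) ≤ u + X ^ (η - θ))) (by linarith)
        (fun n hn => (mem_filter.1 hn).2)
      refine hcnt.trans ?_
      calc 2 * X ^ (η - θ) = 2 / δ * (X ^ η / X) * (δ * X ^ (1 - θ)) := by
            rw [← e1]; field_simp
        _ ≤ max 1 (max (2 / δ) (C / (δ * (η - θ)))) * (X ^ η / X) * N.card := by
            apply mul_le_mul _ h (by positivity) (by positivity)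
            apply mul_le_mul_of_nonneg_right _ hHX.le
            exact (le_max_left _ _).trans (le_max_right _ _)
    · have hcnt := hbt u (X ^ (η - θ)) (N.filter (fun n : ℕ => u ≤ (n : ℝ) ∧ (n : ℝ) ≤ u + X ^ (η - θ))) hX1
        (fun n hn => by
          rw [mem_filter] at hn
          exact ⟨h1 n hn.1, hn.2.1, hn.2.2⟩)
      rw [Real.log_rpow hX0] at hcnt
      refine hcnt.trans ?_
      calc C * (X ^ (η - θ) / ((η - θ) * Real.log X)) = C / (δ * (η - θ)) * (X ^ η / X) * (δ * (X ^ (1 - θ) / Real.log X)) := by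
            rw [← e1]; field_simp
        _ ≤ max 1 (max (2 / δ) (C / (δ * (η - θ)))) * (X ^ η / X) * N.card := by
            apply mul_le_mul _ h2 (by positivity) (by positivity)
            apply mul_le_mul_of_nonneg_right _ hHX.le
            exact (le_max_right _ _).trans (le_max_right _ _)

end Pool.Agent.Y851.DK
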