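import Pool.Agent.Y851.DK.Stm

/-! Use of the sieve bound; Cauchy-Schwarz. -/

set_option autoImplicit false

namespace Pool.Agent.Y851.DK

open Finset Filter

/-- the exponent in the sieve bound -/
noncomputable def SS {k : ℕ} (a b : Fin k → ℕ) : ℝ :=
  ∑ j, sg (a j) + ∑ j, sg (b j) + ∑ i, ∑ j, sg (((a i : ℤ) * (b j : ℤ) - (a j : ℤ) * (b i : ℤ)).natAbs)

lemma sg_nonneg (m : ℕ) : 0 ≤ sg m := sum_nonneg fun _ _ => by positivity

lemma SS_nonneg {k : ℕ} (a b : Fin k → ℕ) : 0 ≤ SS a b := by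
  unfold SS
  have h1 : 0 ≤ ∑ j, sg (a j) := sum_nonneg fun _ _ => sg_nonneg _
  have h2 : 0 ≤ ∑ j, sg (b j) := sum_nonneg fun _ _ => sg_nonneg _
  have h3 : 0 ≤ ∑ i, ∑ j, sg (((a i : ℤ) * (b j : ℤ) - (a j : ℤ) * (b i : ℤ)).natAbs) :=
    sum_nonneg fun _ _ => sum_nonneg fun _ _ => sg_nonneg _
  linarith

lemma sg_one : sg 1 = 0 := by unfold sg; simp
lemma sg_zero : sg 0 = 0 := by unfold sg; simp

open Classical in
/-- the sieve bound for systems `a_j n - b_j`, `n` arbitrary or prime -/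
theorem sv_use (hSV : P_SV) (k : ℕ) : ∃ C : ℝ, 1 ≤ C ∧ ∀ᶠ Y : ℝ in atTop, ∀ a b : Fin k → ℕ, (∀ j, 1 ≤ a j) → (∀ j, 1 ≤ b j) →
    (∀ i j, i ≠ j → a i * b j ≠ a j * b i) →
    (((Icc 1 ⌊Y⌋₊).filter (fun n : ℕ => ∀ j, (a j * n - b j).Prime)).card : ℝ) ≤ C * Real.exp (C * SS a b) * (Y / Real.log Y ^ k) ∧
    (((Icc 1 ⌊Y⌋₊).filter (fun n : ℕ => n.Prime ∧ ∀ j, (a j * n - b j).Prime)).card : ℝ) ≤
      C * Real.exp (C * SS a b) * (Y / Real.log Y ^ (k + 1)) := by
  obtain ⟨C1, hC1, h1⟩ := hSV k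
  obtain ⟨C2, hC2, h2⟩ := hSV (k + 1)
  refine ⟨max C1 (2 * C2), hC1.trans (le_max_left _ _), ?_⟩
  filter_upwards [h1, h2, eventually_gt_atTop 1] with Y hY1 hY2 hY3 a b ha hb hab
  have hlog : 0 < Real.log Y := Real.log_pos hY3
  have hY0 : 0 < Y := by linarith
  -- the set of forms
  set φ : Fin k → ℤ × ℤ := fun j => ((a j : ℤ), -(b j : ℤ)) with hφ
  have hφinj : Function.Injective φ := by
    intro i j hij
    by_contra hne
    apply hab i j hne
    have e1 : (a i : ℤ) = a j := congrArg Prod.fst hij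
    have e2 : -(b i : ℤ) = -(b j : ℤ) := congrArg Prod.snd hij
    have e3 : a i = a j := by exact_mod_cast e1
    have e4 : b i = b j := by
      have : (b i : ℤ) = b j := by linarith
      exact_mod_cast this
    rw [e3, e4]
  have hdet : ∀ i j, (φ i).1 * (φ j).2 - (φ j).1 * (φ i).2 = -((a i : ℤ) * (b j : ℤ) - (a j : ℤ) * (b i : ℤ)) := by
    intro i j
    simp only [hφ]
    ring
  have hdet0 : ∀ i j, i ≠ j → (φ i).1 * (φ j).2 - (φ j).1 * (φ i).2 ≠ 0 := by
    intro i j hij h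
    rw [hdet, neg_eq_zero, sub_eq_zero] at h
    exact hab i j hij (by exact_mod_cast h)
  set F1 : Finset (ℤ × ℤ) := univ.image φ with hF1
  have hF1c : F1.card = k := by rw [hF1, card_image_of_injective _ hφinj, Finset.card_univ, Fintype.card_fin]
  have hval : ∀ (j : Fin k) (n : ℕ), ((φ j).1 * (n : ℤ) + (φ j).2).toNat = a j * n - b j := by
    intro j n
    have : (φ j).1 * (n : ℤ) + (φ j).2 = ((a j * n : ℕ) : ℤ) - ((b j : ℕ) : ℤ) := by simp only [hφ]; push_cast; ring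
    rw [this, Int.toNat_sub]
  have hsum1 : ∑ f ∈ F1, sg f.1.natAbs = ∑ j, sg (a j) := by
    rw [hF1, sum_image (fun i _ j _ h => hφinj h)]
    apply sum_congr rfl
    intro j _
    simp only [hφ, Int.natAbs_natCast]
  have hsum2 : ∑ f ∈ F1, ∑ g ∈ F1, sg (f.1 * g.2 - g.1 * f.2).natAbs =
      ∑ i, ∑ j, sg (((a i : ℤ) * (b j : ℤ) - (a j : ℤ) * (b i : ℤ)).natAbs) := by
    rw [hF1, sum_image (fun i _ j _ h => hφinj h)]
    apply sum_congr rfl
    intro i _
    rw [sum_image (fun i _ j _ h => hφinj h)]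
    apply sum_congr rfl
    intro j _
    rw [hdet, Int.natAbs_neg]
  have hb0 : 0 ≤ ∑ j, sg (b j) := sum_nonneg fun _ _ => sg_nonneg _
  have ha0 : 0 ≤ ∑ j, sg (a j) := sum_nonneg fun _ _ => sg_nonneg _
  have hd0 : 0 ≤ ∑ i, ∑ j, sg (((a i : ℤ) * (b j : ℤ) - (a j : ℤ) * (b i : ℤ)).natAbs) :=
    sum_nonneg fun _ _ => sum_nonneg fun _ _ => sg_nonneg _
  have hSS := SS_nonneg a b
  constructor
  · have h3 := hY1 F1 hF1c (by
      intro f hf
      obtain ⟨j, _, rfl⟩ := mem_image.1 hf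
      have := ha j
      simp only [hφ]
      omega) (by
      intro f hf g hg hfg
      obtain ⟨i, _, rfl⟩ := mem_image.1 hf
      obtain ⟨j, _, rfl⟩ := mem_image.1 hg
      exact hdet0 i j (fun h => hfg (by rw [h])))
    have e : (Icc 1 ⌊Y⌋₊).filter (fun n : ℕ => ∀ j, (a j * n - b j).Prime) =
        (Icc 1 ⌊Y⌋₊).filter (fun n : ℕ => ∀ f ∈ F1, (f.1 * (n : ℤ) + f.2).toNat.Prime) := by
      apply filter_congr
      intro n _
      constructor
      · intro h f hf
        obtain ⟨j, _, rfl⟩ := mem_image.1 hf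
        rw [hval]
        exact h j
      · intro h j
        rw [← hval]
        exact h _ (mem_image_of_mem _ (mem_univ j))
    rw [e]
    refine h3.trans ?_
    rw [hsum1, hsum2]
    apply mul_le_mul_of_nonneg_right _ (by positivity)
    apply mul_le_mul (le_max_left _ _) _ (Real.exp_pos _).le (by positivity)
    apply Real.exp_le_exp.2
    apply mul_le_mul (le_max_left _ _) _ (by positivity) (by positivity)
    unfold SS
    linarith
  · set F2 : Finset (ℤ × ℤ) := insert ((1 : ℤ), (0 : ℤ)) F1 with hF2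
    have hnot : ((1 : ℤ), (0 : ℤ)) ∉ F1 := by
      intro h
      obtain ⟨j, _, h⟩ := mem_image.1 h
      have e2 : -(b j : ℤ) = 0 := congrArg Prod.snd h
      have := hb j
      omega
    have hF2c : F2.card = k + 1 := by rw [hF2, card_insert_of_notMem hnot, hF1c]
    have hdetb : ∀ j, (1 : ℤ) * (φ j).2 - (φ j).1 * 0 = -(b j : ℤ) := by intro j; simp only [hφ]; ring
    have hdetb' : ∀ j, (φ j).1 * 0 - 1 * (φ j).2 = (b j : ℤ) := by intro j; simp only [hφ]; ring
    have h3 := hY2 F2 hF2c (by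
      intro f hf
      rcases mem_insert.1 hf with rfl | hf
      · norm_num
      · obtain ⟨j, _, rfl⟩ := mem_image.1 hf
        have := ha j
        simp only [hφ]
        omega) (by
      intro f hf g hg hfg
      rcases mem_insert.1 hf with rfl | hf
      · rcases mem_insert.1 hg with rfl | hg
        · exact absurd rfl hfg
        · obtain ⟨j, _, rfl⟩ := mem_image.1 hg
          change (1 : ℤ) * (φ j).2 - (φ j).1 * 0 ≠ 0
          rw [hdetb]
          have := hb j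
          omega
      · obtain ⟨i, _, rfl⟩ := mem_image.1 hf
        rcases mem_insert.1 hg with rfl | hg
        · change (φ i).1 * 0 - 1 * (φ i).2 ≠ 0
          rw [hdetb']
          have := hb i
          omega
        · obtain ⟨j, _, rfl⟩ := mem_image.1 hg
          exact hdet0 i j (fun h => hfg (by rw [h])))
    have e : (Icc 1 ⌊Y⌋₊).filter (fun n : ℕ => n.Prime ∧ ∀ j, (a j * n - b j).Prime) =
        (Icc 1 ⌊Y⌋₊).filter (fun n : ℕ => ∀ f ∈ F2, (f.1 * (n : ℤ) + f.2).toNat.Prime) := by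
      apply filter_congr
      intro n _
      constructor
      · rintro ⟨hn, h⟩ f hf
        rcases mem_insert.1 hf with rfl | hf
        · simpa using hn
        · obtain ⟨j, _, rfl⟩ := mem_image.1 hf
          rw [hval]
          exact h j
      · intro h
        refine ⟨by simpa using h _ (mem_insert_self _ _), fun j => ?_⟩
        rw [← hval]
        exact h _ (mem_insert_of_mem (mem_image_of_mem _ (mem_univ j)))
    rw [e]
    refine h3.trans ?_
    have hs1 : ∑ f ∈ F2, sg f.1.natAbs = ∑ j, sg (a j) := by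
      rw [hF2, sum_insert hnot, hsum1]
      simp [sg_one]
    have hs2 : ∑ f ∈ F2, ∑ g ∈ F2, sg (f.1 * g.2 - g.1 * f.2).natAbs =
        2 * ∑ j, sg (b j) + ∑ i, ∑ j, sg (((a i : ℤ) * (b j : ℤ) - (a j : ℤ) * (b i : ℤ)).natAbs) := by
      rw [← hsum2]
      have hb1 : ∑ g ∈ F1, sg ((1 : ℤ) * g.2 - g.1 * 0).natAbs = ∑ j, sg (b j) := by
        rw [hF1, sum_image (fun i _ j _ h => hφinj h)]
        apply sum_congr rfl
        intro j _
        rw [hdetb, Int.natAbs_neg, Int.natAbs_natCast]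
      have hb2 : ∑ g ∈ F1, sg (g.1 * 0 - (1 : ℤ) * g.2).natAbs = ∑ j, sg (b j) := by
        rw [hF1, sum_image (fun i _ j _ h => hφinj h)]
        apply sum_congr rfl
        intro j _
        rw [hdetb', Int.natAbs_natCast]
      rw [hF2, sum_insert hnot]
      have e1 : ∑ g ∈ insert ((1 : ℤ), (0 : ℤ)) F1, sg (((1 : ℤ), (0 : ℤ)).1 * g.2 - g.1 * ((1 : ℤ), (0 : ℤ)).2).natAbs = ∑ j, sg (b j) := by
        rw [sum_insert hnot, ← hb1]
        simp [sg_zero]
      have e2 : ∑ f ∈ F1, ∑ g ∈ insert ((1 : ℤ), (0 : ℤ)) F1, sg (f.1 * g.2 - g.1 * f.2).natAbs =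
          ∑ j, sg (b j) + ∑ f ∈ F1, ∑ g ∈ F1, sg (f.1 * g.2 - g.1 * f.2).natAbs := by
        rw [← hb2, ← sum_add_distrib]
        apply sum_congr rfl
        intro f _
        rw [sum_insert hnot]
      rw [e1, e2]
      ring
    rw [hs1, hs2]
    apply mul_le_mul_of_nonneg_right _ (by positivity)
    apply mul_le_mul ((by linarith : C2 ≤ 2 * C2).trans (le_max_right _ _)) _ (Real.exp_pos _).le (by positivity)
    apply Real.exp_le_exp.2
    have h5 : C2 * (∑ j, sg (a j) + (2 * ∑ j, sg (b j) + ∑ i, ∑ j, sg (((a i : ℤ) * (b j : ℤ) - (a j : ℤ) * (b i : ℤ)).natAbs))) ≤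
        2 * C2 * SS a b := by
      unfold SS
      have hC0 : 0 ≤ C2 := by linarith
      nlinarith [mul_nonneg hC0 ha0, mul_nonneg hC0 hb0, mul_nonneg hC0 hd0]
    exact h5.trans (mul_le_mul_of_nonneg_right (le_max_right _ _) hSS)

open Classical in
/-- Cauchy-Schwarz -/
theorem cs {ι : Type} (S G : Finset ι) (T E : ι → ℝ) (K V s t : ℝ) (hT : ∀ b ∈ S, 0 ≤ T b) (hE : ∀ b ∈ S, 0 ≤ E b)
    (hs0 : 0 ≤ s) (hK : 0 ≤ K) (ht : t * S.card ≤ s)
    (h1 : 4 * s ≤ ∑ b ∈ S, T b) (h2 : ∑ b ∈ S.filter (fun b => b ∉ G), T b ≤ s) (h3 : ∀ b ∈ S, b ∈ G → T b ≤ K * E b)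
    (h4 : ∑ b ∈ S, E b ^ 2 ≤ V) : s ^ 2 ≤ ((S.filter (fun b => t ≤ T b)).card : ℝ) * (K ^ 2 * V) := by
  have e1 : ∑ b ∈ S, T b = ∑ b ∈ S.filter (fun b => b ∈ G), T b + ∑ b ∈ S.filter (fun b => b ∉ G), T b :=
    (sum_filter_add_sum_filter_not S (fun b => b ∈ G) T).symm
  set U := (S.filter (fun b => b ∈ G)).filter (fun b => t ≤ T b) with hU
  have e2 : ∑ b ∈ S.filter (fun b => b ∈ G), T b = ∑ b ∈ U, T b + ∑ b ∈ (S.filter (fun b => b ∈ G)).filter (fun b => ¬ t ≤ T b), T b :=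
    (sum_filter_add_sum_filter_not _ (fun b => t ≤ T b) T).symm
  have e3 : ∑ b ∈ (S.filter (fun b => b ∈ G)).filter (fun b => ¬ t ≤ T b), T b ≤ s := by
    by_cases ht0 : 0 ≤ t
    · calc ∑ b ∈ (S.filter (fun b => b ∈ G)).filter (fun b => ¬ t ≤ T b), T b ≤
            ∑ _b ∈ (S.filter (fun b => b ∈ G)).filter (fun b => ¬ t ≤ T b), t :=
            sum_le_sum fun b hb => (not_le.1 (mem_filter.1 hb).2).le
        _ = ((S.filter (fun b => b ∈ G)).filter (fun b => ¬ t ≤ T b)).card * t := by rw [sum_const, nsmul_eq_mul]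
        _ ≤ S.card * t := by
            apply mul_le_mul_of_nonneg_right _ ht0
            exact_mod_cast card_le_card ((filter_subset _ _).trans (filter_subset _ _))
        _ ≤ s := by linarith
    · push Not at ht0
      have : (S.filter (fun b => b ∈ G)).filter (fun b => ¬ t ≤ T b) = ∅ := by
        apply filter_eq_empty_iff.2
        intro b hb
        rw [not_not]
        exact ht0.le.trans (hT b (mem_filter.1 hb).1)
      rw [this, sum_empty]
      exact hs0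
  have e4 : s ≤ ∑ b ∈ U, T b := by linarith
  have hUS : U ⊆ S := (filter_subset _ _).trans (filter_subset _ _)
  have e5 : ∑ b ∈ U, T b ≤ K * ∑ b ∈ U, E b := by
    rw [mul_sum]
    apply sum_le_sum
    intro b hb
    exact h3 b (hUS hb) (mem_filter.1 (mem_filter.1 hb).1).2
  have e6 : (∑ b ∈ U, E b) ^ 2 ≤ U.card * ∑ b ∈ U, E b ^ 2 := sq_sum_le_card_mul_sum_sq
  have e7 : ∑ b ∈ U, E b ^ 2 ≤ V := (sum_le_sum_of_subset_of_nonneg hUS fun _ _ _ => sq_nonneg _).trans h4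
  have e8 : (U.card : ℝ) ≤ (S.filter (fun b => t ≤ T b)).card := by
    apply Nat.cast_le.2
    apply card_le_card
    intro b hb
    rw [mem_filter]
    exact ⟨hUS hb, (mem_filter.1 hb).2⟩
  have e9 : 0 ≤ ∑ b ∈ U, E b := sum_nonneg fun b hb => hE b (hUS hb)
  have hV : 0 ≤ V := (sum_nonneg fun _ _ => sq_nonneg _).trans h4
  calc s ^ 2 ≤ (K * ∑ b ∈ U, E b) ^ 2 := pow_le_pow_left₀ hs0 (e4.trans e5) 2
    _ = K ^ 2 * (∑ b ∈ U, E b) ^ 2 := by ring
    _ ≤ K ^ 2 * (U.card * ∑ b ∈ U, E b ^ 2) := mul_le_mul_of_nonneg_left e6 (sq_nonneg _)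
    _ ≤ K ^ 2 * ((S.filter (fun b => t ≤ T b)).card * V) := by
        apply mul_le_mul_of_nonneg_left _ (sq_nonneg _)
        exact mul_le_mul e8 e7 (sum_nonneg fun _ _ => sq_nonneg _) (Nat.cast_nonneg _)
    _ = _ := by ring

end Pool.Agent.Y851.DK
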