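import Pool.Agent.Y851.DK.D2
import Pool.Agent.Y851.DK.D3

/-! From windows to constant terms; degenerate systems. -/

set_option autoImplicit false

namespace Pool.Agent.Y851.DK

open Finset Filter
open Pool.Agent.Y851.PS Pool.Agent.Y851.PT

/-- the number of `n ∈ N` with all `a_j n - b_j` prime -/
def TT {k : ℕ} (N : Finset ℕ) (a b : Fin k → ℕ) : ℕ := (N.filter (fun n : ℕ => ∀ j, (a j * n - b j).Prime)).card

lemma ZH_le_cnt (X H : ℝ) (hX : 1 < X) (hH : 0 < H) (m : ℕ) (hm1 : 1 ≤ m) (hm2 : (m : ℝ) ≤ X) :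
    ZH H (m : ℝ) ≤ Real.log X / H * ((Icc 1 ⌊H⌋₊).filter (fun b : ℕ => (m - b).Prime)).card := by
  have hlog : 0 < Real.log X := Real.log_pos hX
  have hmr : (1 : ℝ) ≤ m := by exact_mod_cast hm1
  have hc : ((PH H (m : ℝ)).card : ℝ) ≤ ((Icc 1 ⌊H⌋₊).filter (fun b : ℕ => (m - b).Prime)).card := by
    apply Nat.cast_le.2
    apply card_le_card_of_injOn (fun p => m - p)
    · intro p hp
      rw [mem_coe, mem_PH (Nat.cast_nonneg m)] at hp
      obtain ⟨h1, h2, h3⟩ := hp
      have hpm : p < m := by exact_mod_cast h3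
      have h4 : ((m - p : ℕ) : ℝ) ≤ H := by
        rw [Nat.cast_sub hpm.le]
        linarith
      have h5 : m - p ≤ ⌊H⌋₊ := Nat.le_floor h4
      change m - p ∈ ((Icc 1 ⌊H⌋₊).filter (fun b : ℕ => (m - b).Prime) : Set ℕ)
      rw [mem_coe, mem_filter, mem_Icc]
      refine ⟨⟨by omega, h5⟩, ?_⟩
      have : m - (m - p) = p := by omega
      rw [this]
      exact h1
    · intro p hp q hq hpq
      rw [mem_coe, mem_PH (Nat.cast_nonneg m)] at hp hq
      have hpm : p < m := by exact_mod_cast hp.2.2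
      have hqm : q < m := by exact_mod_cast hq.2.2
      have hpq' : m - p = m - q := hpq
      omega
  unfold ZH
  rw [mul_div_assoc, mul_comm]
  apply mul_le_mul _ hc (Nat.cast_nonneg _) (by positivity)
  apply div_le_div_of_nonneg_right _ hH.le
  exact Real.log_le_log (by linarith) hm2

theorem stepA {k : ℕ} (N : Finset ℕ) (a : Fin k → ℕ) (X H : ℝ) (hX : 1 < X) (hH : 0 < H)
    (ha : ∀ j, ∀ n ∈ N, 1 ≤ a j * n ∧ ((a j * n : ℕ) : ℝ) ≤ X) :
    ∑ n ∈ N, ∏ j, ZH H ((a j : ℝ) * n) ≤
      (Real.log X / H) ^ k * ∑ b ∈ Fintype.piFinset (fun _ : Fin k => Icc 1 ⌊H⌋₊), (TT N a b : ℝ) := by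
  classical
  have hlog : 0 < Real.log X := Real.log_pos hX
  have h1 : ∀ n ∈ N, ∏ j, ZH H ((a j : ℝ) * n) ≤ (Real.log X / H) ^ k *
      (((Fintype.piFinset (fun _ : Fin k => Icc 1 ⌊H⌋₊)).filter (fun b => ∀ j, (a j * n - b j).Prime)).card : ℝ) := by
    intro n hn
    have h2 : ∏ j, ZH H ((a j : ℝ) * n) ≤ ∏ j : Fin k, (Real.log X / H *
        ((Icc 1 ⌊H⌋₊).filter (fun b : ℕ => (a j * n - b).Prime)).card) := by
      apply Finset.prod_le_prod
      · intro j _; exact ZH_nonneg hH.le _
      · intro j _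
        have := ZH_le_cnt X H hX hH (a j * n) (ha j n hn).1 (ha j n hn).2
        push_cast at this
        exact this
    refine h2.trans (le_of_eq ?_)
    rw [prod_mul_distrib, prod_const, Finset.card_univ, Fintype.card_fin]
    congr 1
    rw [← Nat.cast_prod, ← Fintype.card_piFinset]
    congr 2
    ext b
    simp only [Fintype.mem_piFinset, mem_filter]
    constructor
    · intro h; exact ⟨fun j => (h j).1, fun j => (h j).2⟩
    · intro h j; exact ⟨h.1 j, h.2 j⟩
  refine (sum_le_sum h1).trans (le_of_eq ?_)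
  rw [← mul_sum]
  congr 1
  have h3 := sum_card_bipartiteAbove_eq_sum_card_bipartiteBelow (s := N) (t := Fintype.piFinset (fun _ : Fin k => Icc 1 ⌊H⌋₊))
    (fun n b => ∀ j, (a j * n - b j).Prime)
  unfold bipartiteAbove bipartiteBelow at h3
  have h4 : (∑ n ∈ N, (((Fintype.piFinset (fun _ : Fin k => Icc 1 ⌊H⌋₊)).filter (fun b => ∀ j, (a j * n - b j).Prime)).card : ℝ)) =
      ((∑ n ∈ N, ((Fintype.piFinset (fun _ : Fin k => Icc 1 ⌊H⌋₊)).filter (fun b => ∀ j, (a j * n - b j).Prime)).card : ℕ) : ℝ) := by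
    push_cast; rfl
  rw [h4]
  unfold TT
  rw [← Nat.cast_sum]
  congr 1

theorem deg_card {k : ℕ} (a : Fin k → ℕ) (ha : ∀ j, 1 ≤ a j) (M : ℕ) :
    M * ((Fintype.piFinset (fun _ : Fin k => Icc 1 M)).filter (fun b => ¬ ∀ i j, i ≠ j → a i * b j ≠ a j * b i)).card ≤ k ^ 2 * M ^ k := by
  classical
  set S := Fintype.piFinset (fun _ : Fin k => Icc 1 M) with hS
  have hSc : S.card = M ^ k := by
    rw [hS, Fintype.card_piFinset, prod_const, Finset.card_univ, Fintype.card_fin, Nat.card_Icc]
    simp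
  have h1 : ∀ i j : Fin k, i ≠ j → M * (S.filter (fun b => a i * b j = a j * b i)).card ≤ M ^ k := by
    intro i j hij
    rw [← hSc]
    have e : M = (Icc 1 M).card := by rw [Nat.card_Icc]; simp
    conv_lhs => rw [e]
    rw [← card_product]
    apply card_le_card_of_injOn (fun x => Function.update x.2 j x.1)
    · rintro ⟨m, b⟩ hx
      rw [mem_coe, mem_product, mem_filter] at hx
      obtain ⟨hm, hb, -⟩ := hx
      change Function.update b j m ∈ (S : Set (Fin k → ℕ))
      rw [mem_coe, hS, Fintype.mem_piFinset]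
      intro l
      by_cases hl : l = j
      · rw [hl, Function.update_self]; exact hm
      · rw [Function.update_of_ne hl]; exact (Fintype.mem_piFinset.1 hb) l
    · rintro ⟨m, b⟩ hx ⟨m', b'⟩ hx' h
      rw [mem_coe, mem_product, mem_filter] at hx hx'
      have h' : Function.update b j m = Function.update b' j m' := h
      have e1 : m = m' := by
        have := congrFun h' j
        rwa [Function.update_self, Function.update_self] at this
      have e2 : ∀ l, l ≠ j → b l = b' l := by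
        intro l hl
        have := congrFun h' l
        rwa [Function.update_of_ne hl, Function.update_of_ne hl] at this
      have e3 : b j = b' j := by
        have g1 : a i * b j = a j * b i := hx.2.2
        have g2 : a i * b' j = a j * b' i := hx'.2.2
        rw [e2 i hij, ← g2] at g1
        exact Nat.eq_of_mul_eq_mul_left (ha i) g1
      have e4 : b = b' := by
        funext l
        by_cases hl : l = j
        · rw [hl]; exact e3
        · exact e2 l hl
      rw [e1, e4]
  have h2 : S.filter (fun b => ¬ ∀ i j, i ≠ j → a i * b j ≠ a j * b i) ⊆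
      ((univ ×ˢ univ : Finset (Fin k × Fin k)).filter (fun x => x.1 ≠ x.2)).biUnion (fun x => S.filter (fun b => a x.1 * b x.2 = a x.2 * b x.1)) := by
    intro b hb
    rw [mem_filter] at hb
    obtain ⟨hbS, hb2⟩ := hb
    push Not at hb2
    obtain ⟨i, j, hij, h⟩ := hb2
    rw [mem_biUnion]
    exact ⟨(i, j), mem_filter.2 ⟨mem_product.2 ⟨mem_univ _, mem_univ _⟩, hij⟩, mem_filter.2 ⟨hbS, h⟩⟩
  calc M * (S.filter (fun b => ¬ ∀ i j, i ≠ j → a i * b j ≠ a j * b i)).card
      ≤ M * ∑ x ∈ (univ ×ˢ univ : Finset (Fin k × Fin k)).filter (fun x => x.1 ≠ x.2), (S.filter (fun b => a x.1 * b x.2 = a x.2 * b x.1)).card :=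
        Nat.mul_le_mul_left _ ((card_le_card h2).trans card_biUnion_le)
    _ = ∑ x ∈ (univ ×ˢ univ : Finset (Fin k × Fin k)).filter (fun x => x.1 ≠ x.2), M * (S.filter (fun b => a x.1 * b x.2 = a x.2 * b x.1)).card := by
        rw [mul_sum]
    _ ≤ ∑ _x ∈ (univ ×ˢ univ : Finset (Fin k × Fin k)).filter (fun x => x.1 ≠ x.2), M ^ k :=
        sum_le_sum fun x hx => h1 x.1 x.2 (mem_filter.1 hx).2
    _ = ((univ ×ˢ univ : Finset (Fin k × Fin k)).filter (fun x => x.1 ≠ x.2)).card * M ^ k := by rw [sum_const, smul_eq_mul]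
    _ ≤ k ^ 2 * M ^ k := by
        apply Nat.mul_le_mul_right
        refine (card_filter_le _ _).trans ?_
        rw [card_product, Finset.card_univ, Fintype.card_fin, sq]

end Pool.Agent.Y851.DK
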