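import Pool.Agent.Y851.DK.D4

/-! The product formula and the lower bound for a positive proportion of the constant terms. -/

set_option autoImplicit false

namespace Pool.Agent.Y851.DK

open Finset Filter
open Pool.Agent.Y851.PS Pool.Agent.Y851.PT

open Classical in
theorem partA (k : ℕ) (θ η δ γ : ℝ) (hθ : 0 < θ) (hη : θ < η) (hη1 : η < 1) (hδ : 0 < δ) (hγ : 0 < γ) :
    ∀ᶠ X : ℝ in atTop, ∀ A N : Finset ℕ, Dn δ (X ^ θ) (Real.log X) A → Dn δ (X ^ (1 - θ)) (Real.log X) N →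
    (((Fintype.piFinset (fun _ : Fin k => A)).filter (fun a => γ * N.card <
      |∑ n ∈ N, ∏ j, ZH (X ^ η) ((a j : ℝ) * n) - N.card|)).card : ℝ) ≤ γ * (A.card : ℝ) ^ k := by
  obtain ⟨B, hB, hSp⟩ := dense_SpH θ η δ hη hδ
  obtain ⟨L, hL, hbdd⟩ := ZH_bdd η (hθ.trans hη)
  have hL0 : 0 < L := by linarith only [hL]
  obtain ⟨ε, hε⟩ : ∃ ε, ε = γ ^ 2 / (2 * k * L ^ k + 1) := ⟨_, rfl⟩
  have hden : 0 < 2 * k * L ^ k + 1 := by positivity
  have hε0 : 0 < ε := by rw [hε]; positivity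
  have hεk : 2 * k * L ^ k * ε ≤ γ ^ 2 := by
    rw [hε, mul_div_assoc', div_le_iff₀ hden]
    nlinarith [sq_nonneg γ]
  have hcut := cutH θ 1 (1 - η) δ B ε hθ one_pos (by linarith) hδ hB hε0
  have hη0 : 0 < η := hθ.trans hη
  have hlogη : ∀ᶠ X : ℝ in atTop, Real.log X ≤ X ^ η := by
    have := (isLittleO_log_rpow_atTop hη0).bound (show (0 : ℝ) < 1 by norm_num)
    filter_upwards [this, eventually_gt_atTop 1] with X h1 h2
    rw [one_mul, Real.norm_of_nonneg (Real.log_nonneg h2.le), Real.norm_of_nonneg (by positivity)] at h1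
    exact h1
  filter_upwards [hSp, hbdd, hcut, hlogη, eventually_gt_atTop 1] with X h1 h2 h3 h4 h5 A N hA hN
  have hX0 : 0 < X := by linarith
  set C : Finset ℝ := N.image (fun n : ℕ => (n : ℝ)) with hC
  have hinj : Function.Injective (fun n : ℕ => (n : ℝ)) := Nat.cast_injective
  have hCc : C.card = N.card := card_image_of_injective _ hinj
  have h6 := (h3 (X ^ η) (by rw [one_mul]; exact h4) (by rw [sub_sub_cancel]) A C ⟨hA.1, hA.2⟩ (h1 N hN)).swap
  have hmul : X ^ θ * X ^ (1 - θ) = X := by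
    rw [← Real.rpow_add hX0]
    simp
  have hW : ∀ c ∈ C, ∀ a ∈ A, 0 ≤ ZH (X ^ η) ((a : ℝ) * c) ∧ ZH (X ^ η) ((a : ℝ) * c) ≤ L := by
    intro c hc a ha
    obtain ⟨n, hn, rfl⟩ := mem_image.1 hc
    refine ⟨ZH_nonneg (by positivity) _, h2 _ ?_⟩
    calc (a : ℝ) * n ≤ X ^ θ * X ^ (1 - θ) := mul_le_mul (hA.1 a ha).2 (hN.1 n hn).2 (Nat.cast_nonneg _) (by positivity)
      _ = X := hmul
  have h7 := prod_almost C A (fun c (a : ℕ) => ZH (X ^ η) ((a : ℝ) * c)) L ε γ hL hε0.le hγ hW h6 k hεk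
  refine le_trans (le_of_eq ?_) h7
  congr 2
  apply filter_congr
  intro a _
  rw [hCc, hC, sum_image (fun i _ j _ h => hinj h)]

open Classical in
/-- the lower bound for one vector of slopes -/
theorem one_vec (hSV : P_SV) (hMOM : P_MOM) (k : ℕ) (θ η δ T : ℝ) (hθ : 0 < θ) (hη : θ < η) (hη1 : η < 1) (hδ : 0 < δ) :
    ∃ κ : ℝ, 0 < κ ∧ ∀ᶠ X : ℝ in atTop, ∀ N : Finset ℕ, Dn δ (X ^ (1 - θ)) (Real.log X) N → ∀ a : Fin k → ℕ,
    (∀ j, 1 ≤ a j ∧ (a j : ℝ) ≤ X ^ θ ∧ sg (a j) ≤ T) →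
    (N.card : ℝ) / 2 ≤ ∑ n ∈ N, ∏ j, ZH (X ^ η) ((a j : ℝ) * n) →
    κ * (X ^ η) ^ k ≤ (((Fintype.piFinset (fun _ : Fin k => Icc 1 ⌊X ^ η⌋₊)).filter
      (fun b => κ * (N.card / Real.log X ^ k) ≤ (TT N a b : ℝ))).card : ℝ) := by
  obtain ⟨C1, hC1, hsv⟩ := sv_use hSV k
  have hC10 : 0 < C1 := by linarith only [hC1]
  have hη0 : 0 < η := hθ.trans hη
  obtain ⟨C2, hC2, hmom⟩ := hMOM k (2 * C1) (η / 2) T (by positivity) (by positivity)
  have hC20 : 0 < C2 := by linarith only [hC2]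
  have h1θ : 0 < 1 - θ := by linarith only [hη, hη1]
  obtain ⟨ρ, hρ⟩ : ∃ ρ, ρ = δ * (1 - θ) ^ (k + 1) := ⟨_, rfl⟩
  have hρ0 : 0 < ρ := by rw [hρ]; positivity
  refine ⟨min (1 / 8) (ρ ^ 2 / (64 * C1 ^ 2 * C2)), lt_min (by norm_num) (by positivity), ?_⟩
  have hsv' := (tendsto_rpow_atTop h1θ).eventually hsv
  have hlogk : ∀ᶠ X : ℝ in atTop, 16 * ((k : ℝ) ^ 2 * Real.log X ^ k) + 2 ≤ X ^ η := by
    have t1 : Tendsto (fun X : ℝ => Real.log X ^ k / X ^ η) atTop (nhds 0) := by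
      have h2 := (isLittleO_log_rpow_rpow_atTop (k : ℝ) hη0).tendsto_div_nhds_zero
      simpa using h2
    have t2 : Tendsto (fun X : ℝ => 16 * (k : ℝ) ^ 2 * (Real.log X ^ k / X ^ η)) atTop (nhds 0) := by
      have := t1.const_mul (16 * (k : ℝ) ^ 2)
      simpa using this
    filter_upwards [t2.eventually (gt_mem_nhds (show (0 : ℝ) < 1 / 2 by norm_num)), (tendsto_rpow_atTop hη0).eventually_ge_atTop 4,
      eventually_gt_atTop 1] with X g1 g2 g3
    have hXη : 0 < X ^ η := by linarith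
    have g4 : 16 * ((k : ℝ) ^ 2 * Real.log X ^ k) ≤ 1 / 2 * X ^ η := by
      have : 16 * (k : ℝ) ^ 2 * (Real.log X ^ k / X ^ η) = 16 * ((k : ℝ) ^ 2 * Real.log X ^ k) / X ^ η := by ring
      rw [this, div_lt_iff₀ hXη] at g1
      exact g1.le
    linarith
  filter_upwards [hsv', hmom, hlogk, eventually_gt_atTop 1, (tendsto_rpow_atTop (show 0 < η / 2 by positivity)).eventually_ge_atTop 2,
    (tendsto_rpow_atTop h1θ).eventually_gt_atTop 1] with X g1 g2 g3 g4 g5 g6 N hN a ha hprod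
  have hX0 : 0 < X := by linarith only [g4]
  have hlog : 0 < Real.log X := Real.log_pos g4
  obtain ⟨H, hH⟩ : ∃ H, H = X ^ η := ⟨_, rfl⟩
  obtain ⟨M, hM⟩ : ∃ M, M = ⌊X ^ η⌋₊ := ⟨_, rfl⟩
  rw [← hM, ← hH]
  rw [← hH] at hprod g3
  have hH0 : 0 < H := by rw [hH]; positivity
  have hMH : (M : ℝ) ≤ H := by rw [hM, hH]; exact Nat.floor_le (by positivity)
  have hMH2 : H < M + 1 := by rw [hM, hH]; exact Nat.lt_floor_add_one _
  have hH4 : H = X ^ (η / 2) * X ^ (η / 2) := by rw [hH, ← Real.rpow_add hX0]; congr 1; ring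
  have hMη : X ^ (η / 2) ≤ M := by
    have h1 : 2 * X ^ (η / 2) ≤ H := by rw [hH4]; exact mul_le_mul_of_nonneg_right g5 (by positivity)
    linarith only [h1, hMH2, g5]
  have hM2 : (2 : ℝ) ≤ M := g5.trans hMη
  have hM0 : (0 : ℝ) < M := by linarith only [hM2]
  have hHX : H ≤ X := by
    rw [hH]
    calc X ^ η ≤ X ^ (1 : ℝ) := Real.rpow_le_rpow_of_exponent_le g4.le hη1.le
      _ = X := Real.rpow_one X
  have haX : ∀ j, (a j : ℝ) ≤ X := by
    intro j
    refine (ha j).2.1.trans ?_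
    calc X ^ θ ≤ X ^ (1 : ℝ) := Real.rpow_le_rpow_of_exponent_le g4.le (by linarith only [hη, hη1])
      _ = X := Real.rpow_one X
  have hmul : X ^ θ * X ^ (1 - θ) = X := by
    rw [← Real.rpow_add hX0]; simp
  -- the moments
  have hm := g2 M hMη (hMH.trans hHX) a (fun j => ⟨(ha j).1, haX j, (ha j).2.2⟩)
  obtain ⟨S, hS⟩ : ∃ S, S = Fintype.piFinset (fun _ : Fin k => Icc 1 M) := ⟨_, rfl⟩
  rw [← hS] at hm ⊢
  have hSc : (S.card : ℝ) = (M : ℝ) ^ k := by
    rw [hS, Fintype.card_piFinset, prod_const, Finset.card_univ, Fintype.card_fin, Nat.card_Icc]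
    simp
  obtain ⟨Y, hY⟩ : ∃ Y, Y = X ^ (1 - θ) := ⟨_, rfl⟩
  rw [← hY] at g1 hN g6
  have hY0 : 0 < Y := by linarith only [g6]
  have hlogY : Real.log Y = (1 - θ) * Real.log X := by rw [hY, Real.log_rpow hX0]
  have hlogY0 : 0 < Real.log Y := Real.log_pos g6
  -- the majorant
  obtain ⟨K0, hK0, hK0ρ, hK0T⟩ : ∃ K0 : ℝ, 0 ≤ K0 ∧ ρ * K0 ≤ N.card / Real.log X ^ k ∧
      ∀ b : Fin k → ℕ, (∀ j, 1 ≤ b j) → (∀ i j, i ≠ j → a i * b j ≠ a j * b i) → (TT N a b : ℝ) ≤ (C1 * K0) * Real.exp (C1 * SS a b) := by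
    rcases hN.2 with h | ⟨h1, h2⟩
    · refine ⟨Y / Real.log Y ^ k, by positivity, ?_, ?_⟩
      · rw [hlogY, mul_pow, le_div_iff₀ (by positivity)]
        calc ρ * (Y / ((1 - θ) ^ k * Real.log X ^ k)) * Real.log X ^ k = (1 - θ) * (δ * Y) := by
              rw [hρ, pow_succ]; field_simp
          _ ≤ 1 * (δ * Y) := mul_le_mul_of_nonneg_right (by linarith only [hθ]) (by positivity)
          _ ≤ N.card := by linarith only [h]
      · intro b hb hab
        have h2 := (g1 a b (fun j => (ha j).1) hb hab).1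
        calc (TT N a b : ℝ) ≤ (((Icc 1 ⌊Y⌋₊).filter (fun n : ℕ => ∀ j, (a j * n - b j).Prime)).card : ℝ) := by
              apply Nat.cast_le.2
              apply card_le_card
              intro n hn
              rw [mem_filter] at hn ⊢
              refine ⟨mem_Icc.2 ⟨(hN.1 n hn.1).1, Nat.le_floor (hN.1 n hn.1).2⟩, hn.2⟩
          _ ≤ C1 * Real.exp (C1 * SS a b) * (Y / Real.log Y ^ k) := h2
          _ = _ := by ring
    · refine ⟨Y / Real.log Y ^ (k + 1), by positivity, ?_, ?_⟩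
      · rw [hlogY, mul_pow, le_div_iff₀ (by positivity)]
        calc ρ * (Y / ((1 - θ) ^ (k + 1) * Real.log X ^ (k + 1))) * Real.log X ^ k = δ * (Y / Real.log X) := by
              rw [hρ, pow_succ (Real.log X)]; field_simp
          _ ≤ N.card := h2
      · intro b hb hab
        have h3 := (g1 a b (fun j => (ha j).1) hb hab).2
        calc (TT N a b : ℝ) ≤ (((Icc 1 ⌊Y⌋₊).filter (fun n : ℕ => n.Prime ∧ ∀ j, (a j * n - b j).Prime)).card : ℝ) := by
              apply Nat.cast_le.2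
              apply card_le_card
              intro n hn
              rw [mem_filter] at hn ⊢
              refine ⟨mem_Icc.2 ⟨(hN.1 n hn.1).1, Nat.le_floor (hN.1 n hn.1).2⟩, h1 n hn.1, hn.2⟩
          _ ≤ C1 * Real.exp (C1 * SS a b) * (Y / Real.log Y ^ (k + 1)) := h3
          _ = _ := by ring
  -- `N` is not empty
  have hNpos : (0 : ℝ) < N.card := by
    rcases hN.2 with h | ⟨-, h⟩
    · exact lt_of_lt_of_le (by positivity) h
    · exact lt_of_lt_of_le (by positivity) h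
  have hA := stepA N a X H g4 hH0 (by
    intro j n hn
    refine ⟨Nat.mul_pos (ha j).1 (hN.1 n hn).1, ?_⟩
    push_cast
    calc (a j : ℝ) * n ≤ X ^ θ * Y := mul_le_mul (ha j).2.1 (hN.1 n hn).2 (Nat.cast_nonneg _) (by positivity)
      _ = X := by rw [hY]; exact hmul)
  have hMfl : ⌊H⌋₊ = M := by rw [hM, hH]
  rw [hMfl, ← hS] at hA
  obtain ⟨s, hs⟩ : ∃ s, s = 1 / 8 * (N.card * (H / Real.log X) ^ k) := ⟨_, rfl⟩
  have hs0 : 0 ≤ s := by rw [hs]; positivity
  have h4s : 4 * s ≤ ∑ b ∈ S, (TT N a b : ℝ) := by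
    have h1 := hprod.trans hA
    have h2 : (Real.log X / H) ^ k * (H / Real.log X) ^ k = 1 := by
      rw [← mul_pow]
      have : Real.log X / H * (H / Real.log X) = 1 := by field_simp
      rw [this, one_pow]
    calc 4 * s = (N.card : ℝ) / 2 * (H / Real.log X) ^ k := by rw [hs]; ring
      _ ≤ ((Real.log X / H) ^ k * ∑ b ∈ S, (TT N a b : ℝ)) * (H / Real.log X) ^ k := mul_le_mul_of_nonneg_right h1 (by positivity)
      _ = ((Real.log X / H) ^ k * (H / Real.log X) ^ k) * ∑ b ∈ S, (TT N a b : ℝ) := by ring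
      _ = ∑ b ∈ S, (TT N a b : ℝ) := by rw [h2, one_mul]
  obtain ⟨κ, hκ⟩ : ∃ κ, κ = min (1 / 8) (ρ ^ 2 / (64 * C1 ^ 2 * C2)) := ⟨_, rfl⟩
  rw [← hκ]
  have hκ0 : 0 < κ := by rw [hκ]; exact lt_min (by norm_num) (by positivity)
  have hκ1 : κ ≤ 1 / 8 := by rw [hκ]; exact min_le_left _ _
  have hκ2 : κ ≤ ρ ^ 2 / (64 * C1 ^ 2 * C2) := by rw [hκ]; exact min_le_right _ _
  have hcs := cs S (S.filter (fun b => ∀ i j, i ≠ j → a i * b j ≠ a j * b i)) (fun b => (TT N a b : ℝ)) (fun b => Real.exp (C1 * SS a b))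
    (C1 * K0) (C2 * (M : ℝ) ^ k) s (κ * (N.card / Real.log X ^ k)) (fun _ _ => Nat.cast_nonneg _) (fun _ _ => (Real.exp_pos _).le)
    hs0 (by positivity) (by
      rw [hSc, hs, div_pow]
      have h1 : (M : ℝ) ^ k ≤ H ^ k := pow_le_pow_left₀ hM0.le hMH k
      calc κ * (N.card / Real.log X ^ k) * (M : ℝ) ^ k ≤ 1 / 8 * (N.card / Real.log X ^ k) * H ^ k := by gcongr
        _ = _ := by ring)
    h4s (by
      have hdeg := deg_card a (fun j => (ha j).1) M
      refine le_trans (le_of_eq (sum_congr (show _ = S.filter (fun b => ¬ ∀ i j, i ≠ j → a i * b j ≠ a j * b i) from by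
        ext b
        simp only [mem_filter]
        constructor
        · rintro ⟨hb, h⟩
          exact ⟨hb, fun h2 => h ⟨hb, h2⟩⟩
        · rintro ⟨hb, h⟩
          exact ⟨hb, fun h2 => h h2.2⟩) (fun _ _ => rfl))) ?_
      rw [← hS] at hdeg
      have hdeg' : (M : ℝ) * ((S.filter (fun b => ¬ ∀ i j, i ≠ j → a i * b j ≠ a j * b i)).card : ℝ) ≤ (k : ℝ) ^ 2 * (M : ℝ) ^ k := by
        exact_mod_cast hdeg
      have hTN : ∀ b, (TT N a b : ℝ) ≤ N.card := fun b => Nat.cast_le.2 (card_filter_le _ _)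
      have h1 : ∑ b ∈ S.filter (fun b => ¬ ∀ i j, i ≠ j → a i * b j ≠ a j * b i), (TT N a b : ℝ) ≤
          ((S.filter (fun b => ¬ ∀ i j, i ≠ j → a i * b j ≠ a j * b i)).card : ℝ) * N.card := by
        refine (sum_le_sum fun b _ => hTN b).trans ?_
        rw [sum_const, nsmul_eq_mul]
      refine h1.trans ?_
      have h2 : 8 * ((k : ℝ) ^ 2 * Real.log X ^ k) ≤ M := by
        have : (M : ℝ) + 1 ≤ 2 * M := by linarith only [hM2]
        linarith only [g3, hMH2, this]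
      have h3 : ((S.filter (fun b => ¬ ∀ i j, i ≠ j → a i * b j ≠ a j * b i)).card : ℝ) ≤ 1 / 8 * (H / Real.log X) ^ k := by
        have h4 : (M : ℝ) ^ k ≤ H ^ k := pow_le_pow_left₀ hM0.le hMH k
        have h5 : (8 * ((k : ℝ) ^ 2 * Real.log X ^ k)) * ((S.filter (fun b => ¬ ∀ i j, i ≠ j → a i * b j ≠ a j * b i)).card : ℝ) ≤
            (k : ℝ) ^ 2 * H ^ k :=
          (mul_le_mul_of_nonneg_right h2 (Nat.cast_nonneg _)).trans (hdeg'.trans (mul_le_mul_of_nonneg_left h4 (by positivity)))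
        by_cases hk : k = 0
        · subst hk
          have : S.filter (fun b : Fin 0 → ℕ => ¬ ∀ i j, i ≠ j → a i * b j ≠ a j * b i) = ∅ := by
            apply filter_eq_empty_iff.2
            intro b _
            rw [not_not]
            intro i
            exact i.elim0
          rw [this]
          simp
        · have hk0 : (0 : ℝ) < (k : ℝ) ^ 2 := by
            have : (0 : ℝ) < k := by exact_mod_cast Nat.pos_of_ne_zero hk
            positivity
          have h6 : 8 * Real.log X ^ k * ((S.filter (fun b => ¬ ∀ i j, i ≠ j → a i * b j ≠ a j * b i)).card : ℝ) ≤ H ^ k := by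
            apply le_of_mul_le_mul_left _ hk0
            linarith only [h5]
          rw [div_pow, ← mul_div_assoc, le_div_iff₀ (by positivity)]
          linarith only [h6]
      calc ((S.filter (fun b => ¬ ∀ i j, i ≠ j → a i * b j ≠ a j * b i)).card : ℝ) * N.card ≤
            (1 / 8 * (H / Real.log X) ^ k) * N.card := mul_le_mul_of_nonneg_right h3 hNpos.le
        _ = s := by rw [hs]; ring)
    (by
      intro b hb hbG
      rw [mem_filter] at hbG
      apply hK0T b _ hbG.2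
      intro j
      rw [hS, Fintype.mem_piFinset] at hb
      exact (mem_Icc.1 (hb j)).1)
    (by
      refine le_trans (le_of_eq ?_) hm
      apply sum_congr rfl
      intro b _
      rw [sq, ← Real.exp_add]
      congr 1
      unfold SS
      ring)
  -- the conclusion
  obtain ⟨c, hc⟩ : ∃ c : ℝ, c = ((S.filter (fun b => κ * (N.card / Real.log X ^ k) ≤ (TT N a b : ℝ))).card : ℝ) := ⟨_, rfl⟩
  rw [← hc] at hcs ⊢
  have hc0 : 0 ≤ c := by rw [hc]; exact Nat.cast_nonneg _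
  obtain ⟨ν, hν⟩ : ∃ ν : ℝ, ν = N.card / Real.log X ^ k := ⟨_, rfl⟩
  rw [← hν] at hK0ρ
  have hν0 : 0 < ν := by rw [hν]; positivity
  have hsν : s = 1 / 8 * (ν * H ^ k) := by rw [hs, hν, div_pow]; ring
  have h1 : (ρ * K0) ^ 2 ≤ ν ^ 2 := pow_le_pow_left₀ (by positivity) hK0ρ 2
  have h2 : ρ ^ 2 * s ^ 2 ≤ c * (C1 ^ 2 * C2 * ν ^ 2 * H ^ k) := by
    have h4 : (M : ℝ) ^ k ≤ H ^ k := pow_le_pow_left₀ hM0.le hMH k
    calc ρ ^ 2 * s ^ 2 ≤ ρ ^ 2 * (c * ((C1 * K0) ^ 2 * (C2 * (M : ℝ) ^ k))) := mul_le_mul_of_nonneg_left hcs (by positivity)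
      _ = c * (C1 ^ 2 * C2 * (ρ * K0) ^ 2 * (M : ℝ) ^ k) := by ring
      _ ≤ c * (C1 ^ 2 * C2 * ν ^ 2 * H ^ k) := by gcongr
  have hHk : 0 < H ^ k := by positivity
  have h3 : ρ ^ 2 / (64 * C1 ^ 2 * C2) * H ^ k ≤ c := by
    rw [hsν] at h2
    have h5 : (ρ ^ 2 * H ^ k / 64) * (ν ^ 2 * H ^ k) ≤ (c * (C1 ^ 2 * C2)) * (ν ^ 2 * H ^ k) := by
      calc (ρ ^ 2 * H ^ k / 64) * (ν ^ 2 * H ^ k) = ρ ^ 2 * (1 / 8 * (ν * H ^ k)) ^ 2 := by ring
        _ ≤ _ := h2
        _ = _ := by ring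
    have h6 := le_of_mul_le_mul_right h5 (by positivity)
    rw [div_mul_eq_mul_div, div_le_iff₀ (by positivity)]
    linarith only [h6]
  exact (mul_le_mul_of_nonneg_right hκ2 hHk.le).trans h3

end Pool.Agent.Y851.DK
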