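import Pool.Agent.Y851.DK.D5

/-! Almost all vectors of slopes. -/

set_option autoImplicit false

namespace Pool.Agent.Y851.DK

open Finset Filter
open Pool.Agent.Y851.PS Pool.Agent.Y851.PT

lemma Dn.mono {δ δ' Q l : ℝ} {N : Finset ℕ} (h : Dn δ Q l N) (hd : δ' ≤ δ) (hQ : 0 ≤ Q) (hl : 0 ≤ l) : Dn δ' Q l N := by
  refine ⟨h.1, ?_⟩
  rcases h.2 with g | ⟨g1, g2⟩
  · exact Or.inl ((mul_le_mul_of_nonneg_right hd hQ).trans g)
  · exact Or.inr ⟨g1, (mul_le_mul_of_nonneg_right hd (div_nonneg hQ hl)).trans g2⟩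

open Classical in
theorem partB (hSV : P_SV) (hMOM : P_MOM) (hSGA : P_SGA) (k : ℕ) (θ η δ γ : ℝ) (hθ : 0 < θ) (hη : θ < η) (hη1 : η < 1) (hδ : 0 < δ)
    (hγ : 0 < γ) : ∃ κ : ℝ, 0 < κ ∧ ∀ᶠ X : ℝ in atTop, ∀ A N : Finset ℕ, Dn δ (X ^ θ) (Real.log X) A →
    Dn δ (X ^ (1 - θ)) (Real.log X) N →
    (((Fintype.piFinset (fun _ : Fin k => A)).filter (fun a => ¬ (κ * (X ^ η) ^ k ≤
      (((Fintype.piFinset (fun _ : Fin k => Icc 1 ⌊X ^ η⌋₊)).filter
        (fun b => κ * (N.card / Real.log X ^ k) ≤ (TT N a b : ℝ))).card : ℝ)))).card : ℝ) ≤ γ * (A.card : ℝ) ^ k := by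
  obtain ⟨f, hf⟩ : ∃ f, f = min (1 / 2) (γ / (2 * (k + 1))) := ⟨_, rfl⟩
  have hf0 : 0 < f := by rw [hf]; exact lt_min (by norm_num) (by positivity)
  have hf1 : f ≤ 1 / 2 := by rw [hf]; exact min_le_left _ _
  have hf2 : k * f ≤ γ / 2 := by
    have h1 : f ≤ γ / (2 * (k + 1)) := by rw [hf]; exact min_le_right _ _
    have hk0 : (0 : ℝ) ≤ k := Nat.cast_nonneg _
    calc k * f ≤ (k + 1) * f := by linarith only [hf0]
      _ ≤ (k + 1) * (γ / (2 * (k + 1))) := mul_le_mul_of_nonneg_left h1 (by positivity)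
      _ = γ / 2 := by field_simp
  obtain ⟨T, hT, hsga⟩ := hSGA f δ hf0 hδ
  obtain ⟨κ, hκ, hvec⟩ := one_vec hSV hMOM k θ η δ T hθ hη hη1 hδ
  obtain ⟨γ', hγ'⟩ : ∃ γ', γ' = min (γ / 2) (1 / 2) := ⟨_, rfl⟩
  have hγ'0 : 0 < γ' := by rw [hγ']; exact lt_min (by positivity) (by norm_num)
  have hγ'1 : γ' ≤ γ / 2 := by rw [hγ']; exact min_le_left _ _
  have hγ'2 : γ' ≤ 1 / 2 := by rw [hγ']; exact min_le_right _ _
  refine ⟨κ, hκ, ?_⟩
  filter_upwards [hvec, partA k θ η (δ / 2) γ' hθ hη hη1 (half_pos hδ) hγ'0, eventually_gt_atTop 1] with X h1 h2 h3 A N hA hN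
  have hX0 : 0 < X := by linarith only [h3]
  have hlog : 0 < Real.log X := Real.log_pos h3
  obtain ⟨A1, hA1⟩ : ∃ A1, A1 = A.filter (fun a => ¬ T < sg a) := ⟨_, rfl⟩
  have hA1A : A1 ⊆ A := by rw [hA1]; exact filter_subset _ _
  have hbad := hsga (X ^ θ) A hA.1 (by
    rcases hA.2 with h | ⟨h, -⟩
    · exact Or.inl h
    · exact Or.inr h)
  have hA1c : (1 - f) * A.card ≤ (A1.card : ℝ) := by
    have h4 : ((A.filter (fun a => T < sg a)).card : ℝ) + A1.card = A.card := by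
      rw [hA1]
      exact_mod_cast card_filter_add_card_filter_not (s := A) (fun a => T < sg a)
    linarith only [h4, hbad]
  have hA1d : Dn (δ / 2) (X ^ θ) (Real.log X) A1 := by
    have hA0 : (0 : ℝ) ≤ A.card := Nat.cast_nonneg _
    have h4 : (A.card : ℝ) / 2 ≤ A1.card := by nlinarith only [hA1c, hf1, hA0]
    refine ⟨fun a ha => hA.1 a (hA1A ha), ?_⟩
    rcases hA.2 with h | ⟨h5, h6⟩
    · left; linarith only [h, h4]
    · right; exact ⟨fun a ha => h5 a (hA1A ha), by linarith only [h6, h4]⟩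
  have hN2 : Dn (δ / 2) (X ^ (1 - θ)) (Real.log X) N := hN.mono (by linarith only [hδ]) (by positivity) hlog.le
  have h5 := h2 A1 N hA1d hN2
  have h6 := tuples_lift A A1 hA1A k f (γ / 2) (by linarith only [hf1]) hA1c (by positivity) (fun a => ¬ (κ * (X ^ η) ^ k ≤
      (((Fintype.piFinset (fun _ : Fin k => Icc 1 ⌊X ^ η⌋₊)).filter
        (fun b => κ * (N.card / Real.log X ^ k) ≤ (TT N a b : ℝ))).card : ℝ))) (by
    refine le_trans ?_ (h5.trans (mul_le_mul_of_nonneg_right hγ'1 (by positivity)))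
    apply Nat.cast_le.2
    apply card_le_card
    intro a ha
    rw [mem_filter] at ha ⊢
    refine ⟨ha.1, ?_⟩
    by_contra hcon
    apply ha.2
    push Not at hcon
    have haA : ∀ j, a j ∈ A1 := fun j => (Fintype.mem_piFinset.1 ha.1) j
    apply h1 N hN a
    · intro j
      have h7 := hA.1 (a j) (hA1A (haA j))
      refine ⟨h7.1, h7.2, ?_⟩
      have h8 := haA j
      rw [hA1, mem_filter] at h8
      exact not_lt.1 h8.2
    · have h7 := (abs_le.1 hcon).1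
      have h8 : γ' * N.card ≤ 1 / 2 * N.card := mul_le_mul_of_nonneg_right hγ'2 (Nat.cast_nonneg _)
      linarith only [h7, h8])
  refine h6.trans ?_
  apply mul_le_mul_of_nonneg_right _ (by positivity)
  linarith only [hf2]

end Pool.Agent.Y851.DK
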