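import Pool.Agent.Y851.DK.D6

/-! The final form, with `N` instead of `X`. -/

set_option autoImplicit false

namespace Pool.Agent.Y851.DK

open Finset Filter
open Pool.Agent.Y851.PS Pool.Agent.Y851.PT

open Classical in
theorem final (hSV : P_SV) (hMOM : P_MOM) (hSGA : P_SGA) (k : ℕ) (θ η δ : ℝ) (hθ : 0 < θ) (hη : θ < η) (hη1 : η ≤ 1) (hδ : 0 < δ) :
    ∃ κ N₀ : ℝ, 0 < κ ∧ ∀ N : ℝ, N₀ ≤ N → ∀ A S : Finset ℕ, Dn δ (N ^ θ) (Real.log (N ^ θ)) A → Dn δ N (Real.log N) S →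
    (((Fintype.piFinset (fun _ : Fin k => A)).filter (fun a => ¬
      (|∑ n ∈ S, ∏ j, ZH (N ^ η) ((a j : ℝ) * n) - S.card| ≤ δ * S.card))).card : ℝ) ≤ δ * (A.card : ℝ) ^ k ∧
    (((Fintype.piFinset (fun _ : Fin k => A)).filter (fun a => ¬ (κ * (N ^ η) ^ k ≤
      (((Fintype.piFinset (fun _ : Fin k => Icc 1 ⌊N ^ η⌋₊)).filter
        (fun b => κ * (S.card / Real.log N ^ k) ≤ (TT S a b : ℝ))).card : ℝ)))).card : ℝ) ≤ δ * (A.card : ℝ) ^ k := by
  have h1θ : 0 < 1 + θ := by linarith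
  obtain ⟨θ', hθ'⟩ : ∃ θ', θ' = θ / (1 + θ) := ⟨_, rfl⟩
  obtain ⟨η', hη'⟩ : ∃ η', η' = η / (1 + θ) := ⟨_, rfl⟩
  have hθ'0 : 0 < θ' := by rw [hθ']; positivity
  have hη'θ : θ' < η' := by rw [hθ', hη']; exact div_lt_div_of_pos_right hη h1θ
  have hη'1 : η' < 1 := by rw [hη', div_lt_one h1θ]; linarith
  have hA := partA k θ' η' δ δ hθ'0 hη'θ hη'1 hδ hδ
  obtain ⟨κ, hκ, hB⟩ := partB hSV hMOM hSGA k θ' η' δ δ hθ'0 hη'θ hη'1 hδ hδ
  have ht : Tendsto (fun N : ℝ => N ^ (1 + θ)) atTop atTop := tendsto_rpow_atTop h1θ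
  obtain ⟨N₁, hN₁⟩ := Filter.eventually_atTop.1 ((ht.eventually hA).and ((ht.eventually hB).and
    ((eventually_gt_atTop (1 : ℝ)).and (((tendsto_rpow_atTop hθ).eventually_gt_atTop 1)))))
  refine ⟨min κ (κ / (1 + θ) ^ k), N₁, lt_min hκ (by positivity), fun N hN A S hAd hSd => ?_⟩
  obtain ⟨g1, g2, g3, g4⟩ := hN₁ N hN
  have hN0 : 0 < N := by linarith
  have hlog : 0 < Real.log N := Real.log_pos g3
  obtain ⟨X, hX⟩ : ∃ X, X = N ^ (1 + θ) := ⟨_, rfl⟩
  rw [← hX] at g1 g2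
  have e1 : X ^ θ' = N ^ θ := by
    rw [hX, hθ', ← Real.rpow_mul hN0.le]
    congr 1
    field_simp
  have e2 : X ^ (1 - θ') = N := by
    rw [hX, hθ', ← Real.rpow_mul hN0.le]
    have : (1 + θ) * (1 - θ / (1 + θ)) = 1 := by field_simp; ring
    rw [this, Real.rpow_one]
  have e3 : X ^ η' = N ^ η := by
    rw [hX, hη', ← Real.rpow_mul hN0.le]
    congr 1
    field_simp
  have e4 : Real.log X = (1 + θ) * Real.log N := by rw [hX, Real.log_rpow hN0]
  have hlogX : 0 < Real.log X := by rw [e4]; positivity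
  have hlQ : 0 < Real.log (N ^ θ) := Real.log_pos g4
  have hAd' : Dn δ (X ^ θ') (Real.log X) A := by
    rw [e1]
    refine ⟨hAd.1, ?_⟩
    rcases hAd.2 with h | ⟨h5, h6⟩
    · exact Or.inl h
    · right
      refine ⟨h5, le_trans ?_ h6⟩
      apply mul_le_mul_of_nonneg_left _ hδ.le
      apply div_le_div_of_nonneg_left (by positivity) hlQ
      rw [e4, Real.log_rpow hN0]
      apply mul_le_mul_of_nonneg_right _ hlog.le
      linarith
  have hSd' : Dn δ (X ^ (1 - θ')) (Real.log X) S := by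
    rw [e2]
    refine ⟨hSd.1, ?_⟩
    rcases hSd.2 with h | ⟨h5, h6⟩
    · exact Or.inl h
    · right
      refine ⟨h5, le_trans ?_ h6⟩
      apply mul_le_mul_of_nonneg_left _ hδ.le
      apply div_le_div_of_nonneg_left hN0.le hlog
      rw [e4]
      nlinarith
  have r1 := g1 A S hAd' hSd'
  have r2 := g2 A S hAd' hSd'
  rw [e3] at r1 r2
  refine ⟨?_, ?_⟩
  · refine le_trans (le_of_eq ?_) r1
    congr 2
    apply filter_congr
    intro a _
    rw [not_le]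
  · refine le_trans ?_ r2
    apply Nat.cast_le.2
    apply card_le_card
    intro a ha
    rw [mem_filter] at ha ⊢
    refine ⟨ha.1, fun hcon => ha.2 ?_⟩
    have hNη : 0 < N ^ η := by positivity
    refine le_trans (mul_le_mul_of_nonneg_right (min_le_left _ _) (by positivity)) (hcon.trans ?_)
    apply Nat.cast_le.2
    apply card_le_card
    intro b hb
    rw [mem_filter] at hb ⊢
    refine ⟨hb.1, le_trans ?_ hb.2⟩
    rw [e4, mul_pow]
    calc min κ (κ / (1 + θ) ^ k) * (S.card / Real.log N ^ k) ≤ κ / (1 + θ) ^ k * (S.card / Real.log N ^ k) :=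
          mul_le_mul_of_nonneg_right (min_le_right _ _) (by positivity)
      _ = κ * (S.card / ((1 + θ) ^ k * Real.log N ^ k)) := by field_simp

end Pool.Agent.Y851.DK
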