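import Pool.Agent.Y851.DK.D4
import Pool.Agent.Y851.DK.Stm2

/-! From pairs of windows to solutions of `a p - b q = m`. -/

set_option autoImplicit false

namespace Pool.Agent.Y851.DK

open Finset Filter
open Pool.Agent.Y851.PS Pool.Agent.Y851.PT

/-- a grid -/
noncomputable def Gd (w : ℝ) (J : ℕ) : Finset ℝ := (Icc 1 J).image (fun j : ℕ => (j : ℝ) * w)

lemma Gd_inj {w : ℝ} (hw : 0 < w) : Function.Injective (fun j : ℕ => (j : ℝ) * w) := by
  intro i j h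
  have h' : (i : ℝ) * w = j * w := h
  exact_mod_cast mul_right_cancel₀ hw.ne' h'

lemma Gd_card {w : ℝ} (hw : 0 < w) (J : ℕ) : (Gd w J).card = J := by
  unfold Gd
  rw [card_image_of_injective _ (Gd_inj hw), Nat.card_Icc]
  simp

lemma Gd_SpH {X H θ : ℝ} (hX : 1 < X) (hH : 0 < H) (hHX : 2 * H ≤ X) : SpH 4 H θ X (Gd (H / X ^ θ) ⌊X / H⌋₊) := by
  have hX0 : 0 < X := by linarith
  have hw : 0 < H / X ^ θ := by positivity
  have hJ2 : (⌊X / H⌋₊ : ℝ) ≤ X / H := Nat.floor_le (by positivity)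
  have hJ3 : X / H < ⌊X / H⌋₊ + 1 := Nat.lt_floor_add_one _
  have h2 : 2 ≤ X / H := by rw [le_div_iff₀ hH]; exact hHX
  refine ⟨?_, ?_, ?_⟩
  · intro c hc
    obtain ⟨j, hj, rfl⟩ := mem_image.1 hc
    rw [mem_Icc] at hj
    have : (0 : ℝ) < j := by exact_mod_cast hj.1
    positivity
  · intro c hc
    obtain ⟨j, hj, rfl⟩ := mem_image.1 hc
    rw [mem_Icc] at hj
    have h1 : (j : ℝ) ≤ X / H := le_trans (by exact_mod_cast hj.2) hJ2
    calc (j : ℝ) * (H / X ^ θ) ≤ X / H * (H / X ^ θ) := mul_le_mul_of_nonneg_right h1 hw.le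
      _ = X ^ (1 - θ) := by rw [Real.rpow_sub hX0, Real.rpow_one]; field_simp
  · intro u
    rw [Gd_card hw]
    unfold Gd
    rw [filter_image, card_image_of_injective _ (Gd_inj hw)]
    have h3 := card_int_le (u / (H / X ^ θ)) 1 ((Icc 1 ⌊X / H⌋₊).filter (fun j : ℕ => u ≤ (j : ℝ) * (H / X ^ θ) ∧ (j : ℝ) * (H / X ^ θ) ≤ u + H / X ^ θ))
      le_rfl (by
        intro n hn
        rw [mem_filter] at hn
        refine ⟨by rw [div_le_iff₀ hw]; exact hn.2.1, ?_⟩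
        rw [← sub_le_iff_le_add, le_div_iff₀ hw]
        linarith [hn.2.2])
    refine h3.trans ?_
    have h4 : X / (2 * H) ≤ (⌊X / H⌋₊ : ℝ) := by
      have : X / (2 * H) = X / H / 2 := by field_simp
      rw [this]
      linarith
    calc (2 : ℝ) * 1 = 4 * (H / X) * (X / (2 * H)) := by field_simp; norm_num
      _ ≤ 4 * (H / X) * (⌊X / H⌋₊ : ℝ) := mul_le_mul_of_nonneg_left h4 (by positivity)

theorem grid_sum (X H θ κ : ℝ) (J M a b : ℕ) (hX : 1 < X) (hH : 0 < H) (hκ : 0 < κ) (ha : κ * X ^ θ ≤ (a : ℝ)) (haX : (a : ℝ) ≤ X ^ θ)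
    (hb : κ * X ^ θ ≤ (b : ℝ)) (hbX : (b : ℝ) ≤ X ^ θ) (hJ : (J : ℝ) ≤ X / H) (hM : M = ⌊X ^ θ * H⌋₊) :
    ∑ c ∈ Gd (H / X ^ θ) J, ((PH H ((b : ℝ) * c)).card : ℝ) * (PH H ((a : ℝ) * c)).card ≤
      2 * (1 / κ + 1) * ∑ m ∈ Icc (-(M : ℤ)) (M : ℤ), (RR X a b m : ℝ) := by
  classical
  have hX0 : 0 < X := by linarith
  have hXθ : 0 < X ^ θ := by positivity
  have hw : 0 < H / X ^ θ := by positivity
  have ha0 : (0 : ℝ) < a := lt_of_lt_of_le (by positivity) ha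
  have hb0 : (0 : ℝ) < b := lt_of_lt_of_le (by positivity) hb
  obtain ⟨P, hP⟩ : ∃ P, P = (Icc 1 ⌊X⌋₊ ×ˢ Icc 1 ⌊X⌋₊).filter (fun x : ℕ × ℕ => (x.1.Prime ∧ x.2.Prime) ∧
    (a : ℤ) * (x.1 : ℤ) - (b : ℤ) * (x.2 : ℤ) ∈ Icc (-(M : ℤ)) (M : ℤ)) := ⟨_, rfl⟩
  -- the number of elements of `P`
  have hPc : (P.card : ℝ) = ∑ m ∈ Icc (-(M : ℤ)) (M : ℤ), (RR X a b m : ℝ) := by
    have h1 := card_eq_sum_card_fiberwise (s := P) (t := Icc (-(M : ℤ)) (M : ℤ))
      (f := fun x : ℕ × ℕ => (a : ℤ) * (x.1 : ℤ) - (b : ℤ) * (x.2 : ℤ)) (by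
        intro x hx
        have hx' : x ∈ P := hx
        rw [hP, mem_filter] at hx'
        exact mem_coe.2 hx'.2.2)
    rw [h1]
    push_cast
    apply sum_congr rfl
    intro m hm
    congr 1
    unfold RR
    congr 1
    rw [hP, filter_filter]
    apply filter_congr
    intro x _
    constructor
    · rintro ⟨⟨⟨h2, h3⟩, -⟩, h5⟩
      exact ⟨h2, h3, h5⟩
    · rintro ⟨h2, h3, h4⟩
      refine ⟨⟨⟨h2, h3⟩, ?_⟩, h4⟩
      rw [h4]; exact hm
  have hcX : ∀ c ∈ Gd (H / X ^ θ) J, 0 < c ∧ c ≤ X ^ (1 - θ) := by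
    intro c hc
    obtain ⟨j, hj, rfl⟩ := mem_image.1 hc
    rw [mem_Icc] at hj
    have h0 : (0 : ℝ) < j := by exact_mod_cast hj.1
    refine ⟨by positivity, ?_⟩
    have h1 : (j : ℝ) ≤ X / H := le_trans (by exact_mod_cast hj.2) hJ
    calc (j : ℝ) * (H / X ^ θ) ≤ X / H * (H / X ^ θ) := mul_le_mul_of_nonneg_right h1 hw.le
      _ = X ^ (1 - θ) := by rw [Real.rpow_sub hX0, Real.rpow_one]; field_simp
  have hmul : X ^ θ * X ^ (1 - θ) = X := by
    rw [← Real.rpow_add hX0]; simp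
  have h1 : ∀ c ∈ Gd (H / X ^ θ) J, ((PH H ((b : ℝ) * c)).card : ℝ) * (PH H ((a : ℝ) * c)).card ≤
      ((P.filter (fun x => x.1 ∈ PH H ((b : ℝ) * c))).card : ℝ) := by
    intro c hc
    obtain ⟨hc0, hc1⟩ := hcX c hc
    rw [← Nat.cast_mul, ← card_product]
    apply Nat.cast_le.2
    apply card_le_card
    rintro ⟨p, q⟩ hx
    rw [mem_product] at hx
    obtain ⟨hp, hq⟩ := hx
    have hp' := (mem_PH (by positivity) p).1 hp
    have hq' := (mem_PH (by positivity) q).1 hq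
    have hbc : (b : ℝ) * c ≤ X := by
      calc (b : ℝ) * c ≤ X ^ θ * X ^ (1 - θ) := mul_le_mul hbX hc1 hc0.le hXθ.le
        _ = X := hmul
    have hac : (a : ℝ) * c ≤ X := by
      calc (a : ℝ) * c ≤ X ^ θ * X ^ (1 - θ) := mul_le_mul haX hc1 hc0.le hXθ.le
        _ = X := hmul
    rw [mem_filter]
    refine ⟨?_, hp⟩
    rw [hP, mem_filter, mem_product, mem_Icc, mem_Icc, mem_Icc]
    refine ⟨⟨⟨hp'.1.one_lt.le, Nat.le_floor (hp'.2.2.le.trans hbc)⟩, ⟨hq'.1.one_lt.le, Nat.le_floor (hq'.2.2.le.trans hac)⟩⟩, ⟨hp'.1, hq'.1⟩, ?_⟩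
    -- the difference
    have e1 : (a : ℝ) * p - b * q ≤ X ^ θ * H := by
      have h3 : (a : ℝ) * p ≤ a * (b * c) := mul_le_mul_of_nonneg_left hp'.2.2.le ha0.le
      have h4 : (b : ℝ) * (a * c - H) ≤ b * q := mul_le_mul_of_nonneg_left hq'.2.1.le hb0.le
      have h5 : (b : ℝ) * H ≤ X ^ θ * H := mul_le_mul_of_nonneg_right hbX hH.le
      nlinarith
    have e2 : -(X ^ θ * H) ≤ (a : ℝ) * p - b * q := by
      have h3 : (a : ℝ) * (b * c - H) ≤ a * p := mul_le_mul_of_nonneg_left hp'.2.1.le ha0.le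
      have h4 : (b : ℝ) * q ≤ b * (a * c) := mul_le_mul_of_nonneg_left hq'.2.2.le hb0.le
      have h5 : (a : ℝ) * H ≤ X ^ θ * H := mul_le_mul_of_nonneg_right haX hH.le
      nlinarith
    have hcast : (((a : ℤ) * (p : ℤ) - (b : ℤ) * (q : ℤ) : ℤ) : ℝ) = (a : ℝ) * p - b * q := by push_cast; ring
    have hfl : ∀ z : ℤ, |(z : ℝ)| ≤ X ^ θ * H → |z| ≤ (M : ℤ) := by
      intro z hz
      have h3 : z.natAbs ≤ M := by
        rw [hM]
        apply Nat.le_floor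
        rw [Nat.cast_natAbs]
        push_cast
        exact hz
      rw [Int.abs_eq_natAbs]
      exact_mod_cast h3
    have h6 := abs_le.1 (hfl ((a : ℤ) * (p : ℤ) - (b : ℤ) * (q : ℤ)) (by rw [hcast]; exact abs_le.2 ⟨e2, e1⟩))
    exact h6
  refine (sum_le_sum h1).trans ?_
  rw [← hPc]
  -- exchange
  have h2 := sum_card_bipartiteAbove_eq_sum_card_bipartiteBelow (s := Gd (H / X ^ θ) J) (t := P)
    (fun c x => x.1 ∈ PH H ((b : ℝ) * c))
  unfold bipartiteAbove bipartiteBelow at h2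
  have h3 : ∑ c ∈ Gd (H / X ^ θ) J, ((P.filter (fun x => x.1 ∈ PH H ((b : ℝ) * c))).card : ℝ) =
      ∑ x ∈ P, (((Gd (H / X ^ θ) J).filter (fun c => x.1 ∈ PH H ((b : ℝ) * c))).card : ℝ) := by
    rw [← Nat.cast_sum, ← Nat.cast_sum, h2]
  rw [h3]
  have h4 : ∀ x ∈ P, (((Gd (H / X ^ θ) J).filter (fun c => x.1 ∈ PH H ((b : ℝ) * c))).card : ℝ) ≤ 2 * (1 / κ + 1) := by
    rintro ⟨p, q⟩ _
    unfold Gd
    rw [filter_image, card_image_of_injective _ (Gd_inj hw)]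
    apply card_int_le (p / (b * (H / X ^ θ))) (1 / κ + 1)
    · have : 0 < 1 / κ := by positivity
      linarith
    · intro n hn
      rw [mem_filter, mem_PH (by positivity)] at hn
      obtain ⟨-, -, h5, h6⟩ := hn
      have hbw : 0 < (b : ℝ) * (H / X ^ θ) := by positivity
      constructor
      · rw [div_le_iff₀ hbw]
        have : (n : ℝ) * (b * (H / X ^ θ)) = b * (n * (H / X ^ θ)) := by ring
        rw [this]; exact h6.le
      · have h7 : H ≤ (1 : ℝ) / κ * (b * (H / X ^ θ)) := by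
          have h8 : κ * X ^ θ * (H / X ^ θ) ≤ b * (H / X ^ θ) := mul_le_mul_of_nonneg_right hb hw.le
          have h9 : κ * X ^ θ * (H / X ^ θ) = κ * H := by field_simp
          rw [h9] at h8
          calc H = 1 / κ * (κ * H) := by field_simp
            _ ≤ 1 / κ * (b * (H / X ^ θ)) := mul_le_mul_of_nonneg_left h8 (by positivity)
        have h10 : (n : ℝ) * (b * (H / X ^ θ)) ≤ (p / (b * (H / X ^ θ)) + (1 / κ + 1)) * (b * (H / X ^ θ)) := by
          have e : ((p : ℝ) / (b * (H / X ^ θ)) + (1 / κ + 1)) * (b * (H / X ^ θ)) = p + 1 / κ * (b * (H / X ^ θ)) + b * (H / X ^ θ) := by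
            rw [add_mul, div_mul_cancel₀ _ hbw.ne']; ring
          rw [e]
          have h11 : (n : ℝ) * (b * (H / X ^ θ)) = b * (n * (H / X ^ θ)) := by ring
          rw [h11]
          linarith
        exact le_of_mul_le_mul_right h10 hbw
  refine (sum_le_sum h4).trans (le_of_eq ?_)
  rw [sum_const, nsmul_eq_mul, mul_comm]

end Pool.Agent.Y851.DK
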