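import Pool.Agent.Y851.DK.E2

/-! The lower bound for one pair of coefficients. -/

set_option autoImplicit false

namespace Pool.Agent.Y851.DK

open Finset Filter
open Pool.Agent.Y851.PS Pool.Agent.Y851.PT

lemma RR_zero (X : ℝ) (a b : ℕ) (ha : 1 ≤ a) (hb : 1 ≤ b) (hab : a ≠ b) : RR X a b 0 ≤ b := by
  classical
  unfold RR
  have h1 : ((Icc 1 ⌊X⌋₊ ×ˢ Icc 1 ⌊X⌋₊).filter (fun x : ℕ × ℕ => x.1.Prime ∧ x.2.Prime ∧ (a : ℤ) * (x.1 : ℤ) - (b : ℤ) * (x.2 : ℤ) = 0)).card ≤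
      (Icc 1 b).card := by
    apply card_le_card_of_injOn (fun x => x.1)
    · rintro ⟨p, q⟩ hx
      rw [mem_coe, mem_filter] at hx
      obtain ⟨-, hp, hq, h⟩ := hx
      change p ∈ (Icc 1 b : Set ℕ)
      rw [mem_coe, mem_Icc]
      refine ⟨hp.one_lt.le, ?_⟩
      have h2 : a * p = b * q := by
        have : (a : ℤ) * p = b * q := by linarith
        exact_mod_cast this
      have h3 : p ∣ b * q := ⟨a, by rw [← h2]; ring⟩
      rcases (Nat.Prime.dvd_mul hp).1 h3 with h4 | h4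
      · exact Nat.le_of_dvd hb h4
      · exfalso
        have h5 : p = q := (Nat.prime_dvd_prime_iff_eq hp hq).1 h4
        rw [h5] at h2
        exact hab (Nat.eq_of_mul_eq_mul_right hq.pos h2)
    · rintro ⟨p, q⟩ hx ⟨p', q'⟩ hx' h
      rw [mem_coe, mem_filter] at hx hx'
      have hpp : p = p' := h
      subst hpp
      have h2 : (b : ℤ) * q = b * q' := by linarith [hx.2.2.2, hx'.2.2.2]
      have h3 : b * q = b * q' := by exact_mod_cast h2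
      rw [Nat.eq_of_mul_eq_mul_left hb h3]
  rw [Nat.card_Icc] at h1
  omega

lemma sum_zero_le (F : Finset ℤ) (hF : ∀ m ∈ F, m = 0) (f : ℤ → ℝ) (hf : ∀ m, 0 ≤ f m) : ∑ m ∈ F, f m ≤ f 0 := by
  have h : F ⊆ {0} := fun m hm => mem_singleton.2 (hF m hm)
  refine (sum_le_sum_of_subset_of_nonneg h fun _ _ _ => hf _).trans ?_
  rw [sum_singleton]

lemma ZH_le_PH (X H x : ℝ) (hX : 1 < X) (hH : 0 < H) (hx : 0 < x) (hxX : x ≤ X) : ZH H x ≤ Real.log X / H * (PH H x).card := by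
  unfold ZH
  have h1 : Real.log x ≤ Real.log X := Real.log_le_log hx hxX
  calc ((PH H x).card : ℝ) * Real.log x / H ≤ ((PH H x).card : ℝ) * Real.log X / H := by
        apply div_le_div_of_nonneg_right _ hH.le
        exact mul_le_mul_of_nonneg_left h1 (Nat.cast_nonneg _)
    _ = _ := by ring

open Classical in
theorem one_pair (hSOL : P_SOL) (hMN : P_MN) (θ lam κ₁ T : ℝ) (G : ℕ) (hθ : 0 < θ) (hθ1 : θ < 1) (hlam : 0 < lam) (hκ₁ : 0 < κ₁) :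
    ∃ κ : ℝ, 0 < κ ∧ ∀ᶠ X : ℝ in atTop, ∀ H : ℝ, lam * Real.log X ≤ H → X ^ θ * H ≤ X → ∀ a b : ℕ,
    κ₁ * X ^ θ ≤ (a : ℝ) → (a : ℝ) ≤ X ^ θ → κ₁ * X ^ θ ≤ (b : ℝ) → (b : ℝ) ≤ X ^ θ → sg a ≤ T → sg b ≤ T → 1 ≤ a → 1 ≤ b →
    a ≠ b → Nat.gcd a b ≤ G →
    ((Gd (H / X ^ θ) ⌊X / H⌋₊).card : ℝ) / 2 ≤ ∑ c ∈ Gd (H / X ^ θ) ⌊X / H⌋₊, ZH H ((b : ℝ) * c) * ZH H ((a : ℝ) * c) →
    κ * (X ^ θ * H) ≤ (((Icc (-(⌊X ^ θ * H⌋₊ : ℤ)) (⌊X ^ θ * H⌋₊ : ℤ)).filter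
      (fun m => κ * (X ^ (1 - θ) / Real.log X ^ 2) ≤ (RR X a b m : ℝ))).card : ℝ) := by
  obtain ⟨C1, hC1, hsol⟩ := hSOL θ κ₁ T G hθ hθ1 hκ₁
  have hC10 : 0 < C1 := by linarith only [hC1]
  obtain ⟨C2, hC2, hmn⟩ := hMN (2 * C1) θ (by positivity) hθ
  have hC20 : 0 < C2 := by linarith only [hC2]
  obtain ⟨c₁, hc₁⟩ : ∃ c₁, c₁ = 2 * (1 / κ₁ + 1) := ⟨_, rfl⟩
  have hc₁0 : 0 < c₁ := by rw [hc₁]; positivity
  obtain ⟨κ, hκ⟩ : ∃ κ, κ = min (1 / (48 * c₁)) (1 / (512 * c₁ ^ 2 * C1 ^ 2 * C2)) := ⟨_, rfl⟩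
  have hκ0 : 0 < κ := by rw [hκ]; exact lt_min (by positivity) (by positivity)
  have hκ1 : κ ≤ 1 / (48 * c₁) := by rw [hκ]; exact min_le_left _ _
  have hκ2 : κ ≤ 1 / (512 * c₁ ^ 2 * C1 ^ 2 * C2) := by rw [hκ]; exact min_le_right _ _
  refine ⟨κ, hκ0, ?_⟩
  have h1θ : 0 < 1 - θ := by linarith only [hθ1]
  have hlogs : ∀ᶠ X : ℝ in atTop, X ^ θ * (16 * c₁) * Real.log X ≤ lam * X := by
    have t1 : Tendsto (fun X : ℝ => Real.log X / X ^ (1 - θ)) atTop (nhds 0) :=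
      (isLittleO_log_rpow_atTop h1θ).tendsto_div_nhds_zero
    have t2 : Tendsto (fun X : ℝ => 16 * c₁ * (Real.log X / X ^ (1 - θ))) atTop (nhds 0) := by
      have := t1.const_mul (16 * c₁)
      simpa using this
    filter_upwards [t2.eventually (gt_mem_nhds hlam), eventually_gt_atTop 1] with X g1 g2
    have hX0 : 0 < X := by linarith
    have hpos : 0 < X ^ (1 - θ) := by positivity
    have g3 : 16 * c₁ * Real.log X ≤ lam * X ^ (1 - θ) := by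
      have : 16 * c₁ * (Real.log X / X ^ (1 - θ)) = 16 * c₁ * Real.log X / X ^ (1 - θ) := by ring
      rw [this, div_lt_iff₀ hpos] at g1
      exact g1.le
    have hmul : X ^ θ * X ^ (1 - θ) = X := by
      rw [← Real.rpow_add hX0]; simp
    calc X ^ θ * (16 * c₁) * Real.log X = X ^ θ * (16 * c₁ * Real.log X) := by ring
      _ ≤ X ^ θ * (lam * X ^ (1 - θ)) := mul_le_mul_of_nonneg_left g3 (by positivity)
      _ = lam * (X ^ θ * X ^ (1 - θ)) := by ring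
      _ = lam * X := by rw [hmul]
  have hlog2 : ∀ᶠ X : ℝ in atTop, 2 ≤ lam * Real.log X := (Real.tendsto_log_atTop.const_mul_atTop hlam).eventually_ge_atTop 2
  filter_upwards [hsol, hmn, hlogs, hlog2, (tendsto_rpow_atTop hθ).eventually_ge_atTop 2, eventually_gt_atTop 1] with
    X g1 g2 g3 g4 g5 g6 H hH1 hH2 a b ha haX hb hbX hsa hsb ha1 hb1 hab hgcd hprod
  have hX0 : 0 < X := by linarith only [g6]
  have hlog : 0 < Real.log X := Real.log_pos g6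
  have hH : 2 ≤ H := g4.trans hH1
  have hH0 : 0 < H := by linarith only [hH]
  have hXθ : 0 < X ^ θ := by positivity
  obtain ⟨M, hM⟩ : ∃ M, M = ⌊X ^ θ * H⌋₊ := ⟨_, rfl⟩
  rw [← hM]
  have hMH : (M : ℝ) ≤ X ^ θ * H := by rw [hM]; exact Nat.floor_le (by positivity)
  have hMH2 : X ^ θ * H < M + 1 := by rw [hM]; exact Nat.lt_floor_add_one _
  have hHθ : 2 * X ^ θ ≤ X ^ θ * H := by
    rw [mul_comm]; exact mul_le_mul_of_nonneg_left hH hXθ.le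
  have hMθ : X ^ θ ≤ M := by linarith only [hHθ, hMH2, g5]
  have hMX : (M : ℝ) ≤ X := hMH.trans hH2
  have hM2 : (2 : ℝ) ≤ M := g5.trans hMθ
  have hM0 : (0 : ℝ) < M := by linarith only [hM2]
  have hmn' := g2 M hMθ hMX
  obtain ⟨J, hJ⟩ : ∃ J, J = ⌊X / H⌋₊ := ⟨_, rfl⟩
  rw [← hJ] at hprod
  have hXH : 2 ≤ X / H := by
    rw [le_div_iff₀ hH0]
    calc 2 * H ≤ X ^ θ * H := mul_le_mul_of_nonneg_right g5 hH0.le
      _ ≤ X := hH2
  have hJ1 : (J : ℝ) ≤ X / H := by rw [hJ]; exact Nat.floor_le (by positivity)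
  have hJ2 : X / H < J + 1 := by rw [hJ]; exact Nat.lt_floor_add_one _
  have hJ3 : X / H / 2 ≤ J := by linarith only [hJ2, hXH]
  have hw : 0 < H / X ^ θ := by positivity
  rw [Gd_card hw] at hprod
  have hmul : X ^ θ * X ^ (1 - θ) = X := by
    rw [← Real.rpow_add hX0]; simp
  have hcX : ∀ c ∈ Gd (H / X ^ θ) J, 0 < c ∧ c ≤ X ^ (1 - θ) := by
    intro c hc
    have h := Gd_SpH (θ := θ) g6 hH0 (by rw [← le_div_iff₀ hH0]; exact hXH)
    rw [← hJ] at h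
    exact ⟨h.pos c hc, h.le c hc⟩
  have hgrid := grid_sum X H θ κ₁ J M a b g6 hH0 hκ₁ ha haX hb hbX hJ1 hM
  have ha0 : (0 : ℝ) < a := by exact_mod_cast ha1
  have hb0 : (0 : ℝ) < b := by exact_mod_cast hb1
  have h1 : ∑ c ∈ Gd (H / X ^ θ) J, ZH H ((b : ℝ) * c) * ZH H ((a : ℝ) * c) ≤
      (Real.log X / H) ^ 2 * ∑ c ∈ Gd (H / X ^ θ) J, ((PH H ((b : ℝ) * c)).card : ℝ) * (PH H ((a : ℝ) * c)).card := by
    rw [mul_sum]
    apply sum_le_sum
    intro c hc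
    obtain ⟨hc0, hc1⟩ := hcX c hc
    have hbc : (b : ℝ) * c ≤ X := by
      calc (b : ℝ) * c ≤ X ^ θ * X ^ (1 - θ) := mul_le_mul hbX hc1 hc0.le hXθ.le
        _ = X := hmul
    have hac : (a : ℝ) * c ≤ X := by
      calc (a : ℝ) * c ≤ X ^ θ * X ^ (1 - θ) := mul_le_mul haX hc1 hc0.le hXθ.le
        _ = X := hmul
    have e1 := ZH_le_PH X H ((b : ℝ) * c) g6 hH0 (by positivity) hbc
    have e2 := ZH_le_PH X H ((a : ℝ) * c) g6 hH0 (by positivity) hac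
    calc ZH H ((b : ℝ) * c) * ZH H ((a : ℝ) * c) ≤ (Real.log X / H * (PH H ((b : ℝ) * c)).card) * (Real.log X / H * (PH H ((a : ℝ) * c)).card) :=
          mul_le_mul e1 e2 (ZH_nonneg hH0.le _) (by positivity)
      _ = _ := by ring
  obtain ⟨R, hR⟩ : ∃ R : ℝ, R = ∑ m ∈ Icc (-(M : ℤ)) (M : ℤ), (RR X a b m : ℝ) := ⟨_, rfl⟩
  rw [← hR] at hgrid
  obtain ⟨s, hs⟩ : ∃ s, s = X * H / (16 * c₁ * Real.log X ^ 2) := ⟨_, rfl⟩
  have hs0 : 0 ≤ s := by rw [hs]; positivity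
  have h4s : 4 * s ≤ R := by
    have h2 : X / H / 4 ≤ (Real.log X / H) ^ 2 * (c₁ * R) := by
      calc X / H / 4 ≤ (J : ℝ) / 2 := by linarith only [hJ3]
        _ ≤ _ := hprod
        _ ≤ _ := h1
        _ ≤ (Real.log X / H) ^ 2 * (c₁ * R) := mul_le_mul_of_nonneg_left (by rw [hc₁]; exact hgrid) (by positivity)
    have h3 : 4 * s = X / H / 4 * (H ^ 2 / (c₁ * Real.log X ^ 2)) := by
      rw [hs]; field_simp; ring
    have h4 : R = (Real.log X / H) ^ 2 * (c₁ * R) * (H ^ 2 / (c₁ * Real.log X ^ 2)) := by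
      field_simp
    rw [h3, h4]
    exact mul_le_mul_of_nonneg_right h2 (by positivity)
  have hcs := cs (Icc (-(M : ℤ)) (M : ℤ)) ((Icc (-(M : ℤ)) (M : ℤ)).filter (fun m => m ≠ 0)) (fun m => (RR X a b m : ℝ))
    (fun m => Real.exp (C1 * sg m.natAbs)) (C1 * (X ^ (1 - θ) / Real.log X ^ 2)) (2 * C2 * M) s (κ * (X ^ (1 - θ) / Real.log X ^ 2))
    (fun _ _ => Nat.cast_nonneg _) (fun _ _ => (Real.exp_pos _).le) hs0 (by positivity) (by
      rw [Int.card_Icc]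
      have e0 : ((((M : ℤ) + 1 - -(M : ℤ)).toNat : ℕ) : ℝ) = 2 * M + 1 := by
        have : ((M : ℤ) + 1 - -(M : ℤ)).toNat = 2 * M + 1 := by omega
        rw [this]; push_cast; ring
      rw [e0]
      have e1 : 2 * (M : ℝ) + 1 ≤ 3 * (X ^ θ * H) := by linarith only [hMH, hM2]
      calc κ * (X ^ (1 - θ) / Real.log X ^ 2) * (2 * M + 1) ≤ 1 / (48 * c₁) * (X ^ (1 - θ) / Real.log X ^ 2) * (3 * (X ^ θ * H)) := by gcongr
        _ = (X ^ θ * X ^ (1 - θ)) * H / (16 * c₁ * Real.log X ^ 2) := by field_simp; ring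
        _ = s := by rw [hmul, hs])
    (by rw [← hR]; exact h4s) (by
      refine (sum_zero_le _ ?_ (fun m => (RR X a b m : ℝ)) (fun _ => Nat.cast_nonneg _)).trans ?_
      · intro m hm
        simp only [mem_filter, not_and, not_not] at hm
        exact hm.2 hm.1
      have e3 : (RR X a b 0 : ℝ) ≤ b := Nat.cast_le.2 (RR_zero X a b ha1 hb1 hab)
      refine (e3.trans hbX).trans ?_
      rw [hs, le_div_iff₀ (by positivity)]
      calc X ^ θ * (16 * c₁ * Real.log X ^ 2) = (X ^ θ * (16 * c₁) * Real.log X) * Real.log X := by ring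
        _ ≤ (lam * X) * Real.log X := mul_le_mul_of_nonneg_right g3 hlog.le
        _ = X * (lam * Real.log X) := by ring
        _ ≤ X * H := mul_le_mul_of_nonneg_left hH1 hX0.le)
    (by
      intro m _ hm
      rw [mem_filter] at hm
      have := g1 a b ha1 hb1 ha hb hgcd hsa hsb m hm.2
      refine this.trans (le_of_eq ?_)
      ring)
    (by
      have e1 : ∀ m : ℤ, Real.exp (C1 * sg m.natAbs) ^ 2 = Real.exp (2 * C1 * sg m.natAbs) := by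
        intro m
        rw [sq, ← Real.exp_add]
        congr 1
        ring
      have e2 : ∑ m ∈ Icc (-(M : ℤ)) (M : ℤ), Real.exp (C1 * sg m.natAbs) ^ 2 =
          ∑ m ∈ (Icc (-(M : ℤ)) (M : ℤ)).filter (fun m => m ≠ 0), Real.exp (2 * C1 * sg m.natAbs) +
          ∑ m ∈ (Icc (-(M : ℤ)) (M : ℤ)).filter (fun m => ¬ m ≠ 0), Real.exp (2 * C1 * sg m.natAbs) := by
        rw [sum_filter_add_sum_filter_not]
        exact sum_congr rfl fun m _ => e1 m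
      rw [e2]
      have e3 : ∑ m ∈ (Icc (-(M : ℤ)) (M : ℤ)).filter (fun m => ¬ m ≠ 0), Real.exp (2 * C1 * sg m.natAbs) ≤ 1 := by
        have e4 : (Icc (-(M : ℤ)) (M : ℤ)).filter (fun m => ¬ m ≠ 0) ⊆ {0} := by
          intro m hm
          rw [mem_filter, not_not] at hm
          rw [mem_singleton]
          exact hm.2
        refine (sum_le_sum_of_subset_of_nonneg e4 fun _ _ _ => (Real.exp_pos _).le).trans ?_
        rw [sum_singleton, Int.natAbs_zero, sg_zero, mul_zero, Real.exp_zero]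
      have e5 : (1 : ℝ) ≤ C2 * M := by nlinarith only [hC2, hM2]
      have e6 : ∑ m ∈ (Icc (-(M : ℤ)) (M : ℤ)).filter (fun m => m ≠ 0), Real.exp (2 * C1 * sg m.natAbs) ≤ C2 * M := by
        refine le_trans (le_of_eq ?_) hmn'
        apply sum_congr _ (fun _ _ => rfl)
        ext m
        simp only [mem_filter]
      linarith only [e3, e5, e6])
  -- conclusion
  obtain ⟨c, hc⟩ : ∃ c : ℝ, c = (((Icc (-(M : ℤ)) (M : ℤ)).filter (fun m => κ * (X ^ (1 - θ) / Real.log X ^ 2) ≤ (RR X a b m : ℝ))).card : ℝ) :=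
    ⟨_, rfl⟩
  rw [← hc] at hcs ⊢
  have hc0 : 0 ≤ c := by rw [hc]; exact Nat.cast_nonneg _
  have hXH0 : 0 < X ^ θ * H := by positivity
  obtain ⟨D, hD⟩ : ∃ D, D = (X ^ (1 - θ) / Real.log X ^ 2) ^ 2 * (X ^ θ * H) := ⟨_, rfl⟩
  have hD0 : 0 < D := by rw [hD]; positivity
  have h5 : s ^ 2 = 1 / (256 * c₁ ^ 2) * (X ^ θ * H) * D := by
    have : s = (X ^ (1 - θ) / Real.log X ^ 2) * (X ^ θ * H) / (16 * c₁) := by
      rw [hs]
      nth_rewrite 1 [← hmul]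
      field_simp
    rw [this, hD]
    field_simp
    ring
  have h6 : c * ((C1 * (X ^ (1 - θ) / Real.log X ^ 2)) ^ 2 * (2 * C2 * M)) ≤ c * (2 * C1 ^ 2 * C2) * D := by
    have : (C1 * (X ^ (1 - θ) / Real.log X ^ 2)) ^ 2 * (2 * C2 * M) ≤ (2 * C1 ^ 2 * C2) * D := by
      rw [hD]
      calc (C1 * (X ^ (1 - θ) / Real.log X ^ 2)) ^ 2 * (2 * C2 * M) = (2 * C1 ^ 2 * C2) * ((X ^ (1 - θ) / Real.log X ^ 2) ^ 2 * M) := by ring
        _ ≤ (2 * C1 ^ 2 * C2) * ((X ^ (1 - θ) / Real.log X ^ 2) ^ 2 * (X ^ θ * H)) := by gcongr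
    calc c * ((C1 * (X ^ (1 - θ) / Real.log X ^ 2)) ^ 2 * (2 * C2 * M)) ≤ c * ((2 * C1 ^ 2 * C2) * D) := mul_le_mul_of_nonneg_left this hc0
      _ = _ := by ring
  have h7 : 1 / (256 * c₁ ^ 2) * (X ^ θ * H) ≤ c * (2 * C1 ^ 2 * C2) := by
    apply le_of_mul_le_mul_right _ hD0
    rw [← h5]
    exact hcs.trans h6
  have h8 : 1 / (512 * c₁ ^ 2 * C1 ^ 2 * C2) * (X ^ θ * H) ≤ c := by
    have e : 1 / (512 * c₁ ^ 2 * C1 ^ 2 * C2) * (X ^ θ * H) = (1 / (256 * c₁ ^ 2) * (X ^ θ * H)) / (2 * C1 ^ 2 * C2) := by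
      field_simp; norm_num
    rw [e, div_le_iff₀ (by positivity)]
    exact h7
  exact (mul_le_mul_of_nonneg_right hκ2 hXH0.le).trans h8

end Pool.Agent.Y851.DK
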