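import Pool.Agent.Y851.DK.E1
import Pool.Agent.Y851.DK.E3

/-! Almost all pairs of coefficients. -/

set_option autoImplicit false

namespace Pool.Agent.Y851.DK

open Finset Filter
open Pool.Agent.Y851.PS Pool.Agent.Y851.PT

open Classical in
theorem pairs_main (hSOL : P_SOL) (hMN : P_MN) (hGCD : P_GCD) (hSGA : P_SGA) (θ lam ρ δ : ℝ) (hθ : 0 < θ) (hθ1 : θ < 1)
    (hlam : 0 < lam) (hρ : 0 < ρ) (hδ : 0 < δ) : ∃ κ : ℝ, 0 < κ ∧ ∀ᶠ X : ℝ in atTop, ∀ H : ℝ, lam * Real.log X ≤ H →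
    H ≤ X ^ (1 - ρ) → X ^ θ * H ≤ X → ∀ A : Finset ℕ, Dn δ (X ^ θ) (Real.log X) A →
    (((A ×ˢ A).filter (fun x => ¬ (κ * (X ^ θ * H) ≤ (((Icc (-(⌊X ^ θ * H⌋₊ : ℤ)) (⌊X ^ θ * H⌋₊ : ℤ)).filter
      (fun m => κ * (X ^ (1 - θ) / Real.log X ^ 2) ≤ (RR X x.1 x.2 m : ℝ))).card : ℝ)))).card : ℝ) ≤ δ * (A.card : ℝ) ^ 2 := by
  obtain ⟨f, hf⟩ : ∃ f, f = min (1 / 8) (δ / 16) := ⟨_, rfl⟩
  have hf0 : 0 < f := by rw [hf]; exact lt_min (by norm_num) (by positivity)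
  have hf1 : f ≤ 1 / 8 := by rw [hf]; exact min_le_left _ _
  have hf2 : f ≤ δ / 16 := by rw [hf]; exact min_le_right _ _
  obtain ⟨κ₁, M, hκ₁, hM, hbase⟩ := base θ lam ρ δ 4 f hθ hlam hρ hδ (by norm_num) hf0
  obtain ⟨T, hT, hsga⟩ := hSGA f δ hf0 hδ
  obtain ⟨G, hgcd⟩ := hGCD (δ / 4) δ (by positivity) hδ
  obtain ⟨κ, hκ, hpair⟩ := one_pair hSOL hMN θ lam κ₁ T G hθ hθ1 hlam hκ₁
  obtain ⟨Λ, δ₂, hΛ, hδ₂, hsim⟩ := simulW ℝ ℕ 2 M (δ / 8) hM (by positivity)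
  refine ⟨κ, hκ, ?_⟩
  have hbig : ∀ᶠ X : ℝ in atTop, Real.log X ≤ δ ^ 2 / 8 * X ^ θ := by
    have := (isLittleO_log_rpow_atTop hθ).bound (show (0 : ℝ) < δ ^ 2 / 8 by positivity)
    filter_upwards [this, eventually_gt_atTop 1] with X h1 h2
    rw [Real.norm_of_nonneg (Real.log_nonneg h2.le), Real.norm_of_nonneg (by positivity)] at h1
    exact h1
  filter_upwards [hbase (δ₂ / 2) (by positivity), hpair, hbig, (tendsto_rpow_atTop hθ).eventually_ge_atTop (8 / δ ^ 2),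
    (tendsto_rpow_atTop hθ).eventually_ge_atTop 2, eventually_gt_atTop 1] with X h1 h2 h3 h4 h5 h6 H hH1 hH2 hH3 A hA
  have hX0 : 0 < X := by linarith only [h6]
  have hlog : 0 < Real.log X := Real.log_pos h6
  have hXθ : 0 < X ^ θ := by positivity
  have hH0 : 0 < H := lt_of_lt_of_le (mul_pos hlam hlog) hH1
  have hA0 : (0 : ℝ) ≤ A.card := Nat.cast_nonneg _
  have hAbig : 2 / (δ / 4) ≤ (A.card : ℝ) := by
    have e : 2 / (δ / 4) = 8 / δ := by field_simp; norm_num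
    rw [e]
    rcases hA.2 with h | ⟨-, h⟩
    · refine le_trans ?_ h
      have : 8 / δ = δ * (8 / δ ^ 2) := by field_simp
      rw [this]
      exact mul_le_mul_of_nonneg_left h4 hδ.le
    · refine le_trans ?_ h
      have e2 : 8 / δ ^ 2 ≤ X ^ θ / Real.log X := by
        rw [div_le_div_iff₀ (by positivity) hlog]
        have := mul_le_mul_of_nonneg_left h3 (show (0 : ℝ) ≤ 8 by norm_num)
        calc 8 * Real.log X ≤ 8 * (δ ^ 2 / 8 * X ^ θ) := this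
          _ = X ^ θ * δ ^ 2 := by ring
      have : 8 / δ = δ * (8 / δ ^ 2) := by field_simp
      rw [this]
      exact mul_le_mul_of_nonneg_left e2 hδ.le
  obtain ⟨Cg, hCg⟩ : ∃ Cg, Cg = Gd (H / X ^ θ) ⌊X / H⌋₊ := ⟨_, rfl⟩
  have hSp : SpH 4 H θ X Cg := by
    rw [hCg]
    apply Gd_SpH h6 hH0
    exact (mul_le_mul_of_nonneg_right h5 hH0.le).trans hH3
  obtain ⟨-, hcut, hsmall, hmom⟩ := h1 H hH1 hH2 A Cg ⟨hA.1, hA.2⟩ hSp
  have hsgbad := hsga (X ^ θ) A hA.1 (by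
    rcases hA.2 with h | ⟨h, -⟩
    · exact Or.inl h
    · exact Or.inr h)
  have hgcd' := hgcd (X ^ θ) A hA.1 hAbig (by
    rcases hA.2 with h | ⟨h, -⟩
    · exact Or.inl h
    · exact Or.inr h)
  obtain ⟨A1, hA1⟩ : ∃ A1, A1 = A.filter (fun a : ℕ => κ₁ * X ^ θ ≤ (a : ℝ) ∧ ¬ T < sg a) := ⟨_, rfl⟩
  have hA1A : A1 ⊆ A := by rw [hA1]; exact filter_subset _ _
  have hdiff : ((A \ A1).card : ℝ) ≤ 2 * f * A.card := by
    have e1 : A \ A1 ⊆ A.filter (fun a : ℕ => (a : ℝ) < κ₁ * X ^ θ) ∪ A.filter (fun a => T < sg a) := by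
      intro a ha
      rw [Finset.mem_sdiff, hA1, mem_filter] at ha
      rw [mem_union, mem_filter, mem_filter]
      by_cases g1 : κ₁ * X ^ θ ≤ (a : ℝ)
      · right
        refine ⟨ha.1, ?_⟩
        by_contra g2
        exact ha.2 ⟨ha.1, g1, g2⟩
      · left; exact ⟨ha.1, not_le.1 g1⟩
    have e2 : ((A \ A1).card : ℝ) ≤ (A.filter (fun a : ℕ => (a : ℝ) < κ₁ * X ^ θ)).card + (A.filter (fun a => T < sg a)).card := by
      exact_mod_cast (card_le_card e1).trans (card_union_le _ _)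
    linarith only [e2, hsmall, hsgbad]
  have hA1c : (A.card : ℝ) = A1.card + (A \ A1).card := by
    have := card_sdiff_add_card_eq_card hA1A
    have h7 : ((A \ A1).card : ℝ) + A1.card = A.card := by exact_mod_cast this
    linarith only [h7]
  have hA1h : (A.card : ℝ) ≤ 2 * A1.card := by nlinarith only [hA1c, hdiff, hf1, hA0]
  have hA1le : (A1.card : ℝ) ≤ A.card := by exact_mod_cast card_le_card hA1A
  have hcut1 : Cut Cg A1 (fun c (a : ℕ) => ZH H ((a : ℝ) * c)) δ₂ := by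
    have := (cut_restrict hcut (by positivity) hA1A hA1h).swap
    rwa [show 2 * (δ₂ / 2) = δ₂ by ring] at this
  have hmom1 : ∑ c ∈ Cg, ∑ a ∈ A1, ZH H ((a : ℝ) * c) ^ 2 ≤ M * (Cg.card * A1.card) := by
    rw [sum_comm]
    calc ∑ a ∈ A1, ∑ c ∈ Cg, ZH H ((a : ℝ) * c) ^ 2 ≤ ∑ _a ∈ A1, M * Cg.card := by
          apply sum_le_sum
          intro a ha
          have ha' := ha
          rw [hA1, mem_filter] at ha'
          exact hmom a ha'.1 ha'.2.1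
      _ = M * (Cg.card * A1.card) := by rw [sum_const, nsmul_eq_mul]; ring
  obtain ⟨u, hu1, hu2⟩ := hsim Cg A1 (fun c (a : ℕ) => ZH H ((a : ℝ) * c)) (fun c _ a _ => ZH_nonneg hH0.le _) hcut1 hmom1
  obtain ⟨U, hU⟩ : ∃ U, U = (Fintype.piFinset (fun _ : Fin 2 => A1)).filter (fun y => (Cg.card : ℝ) / 2 < |∑ c ∈ Cg, u y c - Cg.card|) := ⟨_, rfl⟩
  have hUc : (U.card : ℝ) ≤ δ / 4 * (A.card : ℝ) ^ 2 := by
    have hCpos : (0 : ℝ) < Cg.card := by
      rw [hCg, Gd_card (by positivity)]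
      have : 0 < ⌊X / H⌋₊ := by
        apply Nat.floor_pos.2
        rw [le_div_iff₀ hH0, one_mul]
        calc H ≤ X ^ θ * H := by nlinarith only [h5, hH0]
          _ ≤ X := hH3
      exact_mod_cast this
    have e1 : (U.card : ℝ) * ((Cg.card : ℝ) / 2) ≤ δ / 8 * (Cg.card * (A1.card : ℝ) ^ 2) := by
      calc (U.card : ℝ) * ((Cg.card : ℝ) / 2) = ∑ _y ∈ U, (Cg.card : ℝ) / 2 := by rw [sum_const, nsmul_eq_mul]
        _ ≤ ∑ y ∈ U, |∑ c ∈ Cg, u y c - Cg.card| := sum_le_sum fun y hy => by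
            rw [hU, mem_filter] at hy
            exact hy.2.le
        _ ≤ ∑ y ∈ Fintype.piFinset (fun _ : Fin 2 => A1), |∑ c ∈ Cg, u y c - Cg.card| := by
            apply sum_le_sum_of_subset_of_nonneg
            · rw [hU]; exact filter_subset _ _
            · intro _ _ _; exact abs_nonneg _
        _ ≤ _ := hu2
    have e2 : (U.card : ℝ) ≤ δ / 4 * (A1.card : ℝ) ^ 2 := by
      have e3 : (U.card : ℝ) * ((Cg.card : ℝ) / 2) ≤ (δ / 4 * (A1.card : ℝ) ^ 2) * ((Cg.card : ℝ) / 2) := by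
        refine e1.trans (le_of_eq ?_); ring
      exact le_of_mul_le_mul_right e3 (by positivity)
    refine e2.trans ?_
    gcongr
  -- the bad pairs
  have hsub : (A ×ˢ A).filter (fun x => ¬ (κ * (X ^ θ * H) ≤ (((Icc (-(⌊X ^ θ * H⌋₊ : ℤ)) (⌊X ^ θ * H⌋₊ : ℤ)).filter
      (fun m => κ * (X ^ (1 - θ) / Real.log X ^ 2) ≤ (RR X x.1 x.2 m : ℝ))).card : ℝ))) ⊆
      (((A \ A1) ×ˢ A) ∪ (A ×ˢ (A \ A1))) ∪ ((A ×ˢ A).filter (fun x => x.1 = x.2 ∨ G < Nat.gcd x.1 x.2) ∪ U.image (fun y => (y 1, y 0))) := by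
    rintro ⟨a, b⟩ hx
    rw [mem_filter, mem_product] at hx
    obtain ⟨⟨ha, hb⟩, hbad⟩ := hx
    by_contra hcon
    simp only [mem_union, not_or] at hcon
    obtain ⟨⟨k1, k2⟩, k3, k4⟩ := hcon
    have ha1 : a ∈ A1 := by
      by_contra h
      exact k1 (mem_product.2 ⟨Finset.mem_sdiff.2 ⟨ha, h⟩, hb⟩)
    have hb1 : b ∈ A1 := by
      by_contra h
      exact k2 (mem_product.2 ⟨ha, Finset.mem_sdiff.2 ⟨hb, h⟩⟩)
    have hne : a ≠ b := by
      intro h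
      exact k3 (mem_filter.2 ⟨mem_product.2 ⟨ha, hb⟩, Or.inl h⟩)
    have hg : Nat.gcd a b ≤ G := by
      by_contra h
      exact k3 (mem_filter.2 ⟨mem_product.2 ⟨ha, hb⟩, Or.inr (not_le.1 h)⟩)
    have hyA : (![b, a] : Fin 2 → ℕ) ∈ Fintype.piFinset (fun _ : Fin 2 => A1) := by
      rw [Fintype.mem_piFinset]
      intro j
      fin_cases j
      · exact hb1
      · exact ha1
    have hyU : (![b, a] : Fin 2 → ℕ) ∉ U := by
      intro h
      apply k4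
      rw [mem_image]
      exact ⟨![b, a], h, rfl⟩
    have hy2 : |∑ c ∈ Cg, u ![b, a] c - Cg.card| ≤ (Cg.card : ℝ) / 2 := by
      by_contra h
      apply hyU
      rw [hU, mem_filter]
      exact ⟨hyA, not_le.1 h⟩
    have hy3 : (Cg.card : ℝ) / 2 ≤ ∑ c ∈ Cg, ZH H ((b : ℝ) * c) * ZH H ((a : ℝ) * c) := by
      have e1 : ∑ c ∈ Cg, u ![b, a] c ≤ ∑ c ∈ Cg, ZH H ((b : ℝ) * c) * ZH H ((a : ℝ) * c) := by
        apply sum_le_sum
        intro c hc
        have e2 := (hu1 ![b, a] hyA c hc).2.2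
        rw [Fin.prod_univ_two] at e2
        exact e2
      have e3 := (abs_le.1 hy2).1
      linarith only [e1, e3]
    rw [hA1, mem_filter] at ha1 hb1
    apply hbad
    have := h2 H hH1 hH3 a b ha1.2.1 (hA.1 a ha).2 hb1.2.1 (hA.1 b hb).2 (not_lt.1 ha1.2.2) (not_lt.1 hb1.2.2) (hA.1 a ha).1 (hA.1 b hb).1
      hne hg (by rw [← hCg]; exact hy3)
    exact this
  have hcard := (card_le_card hsub).trans ((card_union_le _ _).trans (add_le_add (card_union_le _ _) (card_union_le _ _)))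
  have hcard' : (((A ×ˢ A).filter (fun x => ¬ (κ * (X ^ θ * H) ≤ (((Icc (-(⌊X ^ θ * H⌋₊ : ℤ)) (⌊X ^ θ * H⌋₊ : ℤ)).filter
      (fun m => κ * (X ^ (1 - θ) / Real.log X ^ 2) ≤ (RR X x.1 x.2 m : ℝ))).card : ℝ)))).card : ℝ) ≤
      ((A \ A1).card * A.card + A.card * (A \ A1).card) + (((A ×ˢ A).filter (fun x => x.1 = x.2 ∨ G < Nat.gcd x.1 x.2)).card + U.card) := by
    have e1 : (U.image (fun y => (y 1, y 0))).card ≤ U.card := card_image_le
    rw [card_product, card_product] at hcard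
    have e2 := hcard.trans (Nat.add_le_add_left (Nat.add_le_add_left e1 _) _)
    exact_mod_cast e2
  refine hcard'.trans ?_
  have e1 : ((A \ A1).card : ℝ) * A.card ≤ δ / 8 * (A.card : ℝ) ^ 2 := by
    calc ((A \ A1).card : ℝ) * A.card ≤ (2 * f * A.card) * A.card := mul_le_mul_of_nonneg_right hdiff hA0
      _ = 2 * f * (A.card : ℝ) ^ 2 := by ring
      _ ≤ 2 * (δ / 16) * (A.card : ℝ) ^ 2 := by gcongr
      _ = _ := by ring
  have e2 : 0 ≤ (A.card : ℝ) ^ 2 := sq_nonneg _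
  nlinarith only [e1, e2, hgcd', hUc, hδ]

end Pool.Agent.Y851.DK
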