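import Pool.Agent.Y851.PT.P9

/-! All sign patterns occur with positive proportion, for almost all tuples. -/

set_option autoImplicit false

namespace Pool.Agent.Y851.DK

open Finset
open Pool.Agent.Y851.PS

/-- large (`s = true`) or small (`s = false`) -/
def Pat {α β : Type} (W : α → β → ℝ) (ε : ℝ) (s : Bool) (a : α) (c : β) : Prop :=
  (s = true → 1 - ε ≤ W a c) ∧ (s = false → W a c ≤ 1 + ε)

lemma le_sq_div {w L : ℝ} (hL : 0 < L) : w ≤ w ^ 2 / L + L := by
  have h1 : 0 ≤ (w - L) ^ 2 := sq_nonneg _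
  have h2 : 0 ≤ w ^ 2 := sq_nonneg _
  have h3 : w * L ≤ w ^ 2 + L * L := by nlinarith only [h1, h2, sq_nonneg L, sq_nonneg (w + L), hL]
  have h4 : w ≤ (w ^ 2 + L * L) / L := by rw [le_div_iff₀ hL]; exact h3
  calc w ≤ (w ^ 2 + L * L) / L := h4
    _ = w ^ 2 / L + L := by field_simp

lemma card_ind {γ : Type} (S : Finset γ) (p : γ → Prop) [DecidablePred p] :
    ((S.filter p).card : ℝ) = ∑ t ∈ S, (if p t then (1 : ℝ) else 0) := by
  rw [card_filter, Nat.cast_sum]
  exact sum_congr rfl fun t _ => by split_ifs <;> simp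

lemma ind_le_one (p : Prop) [Decidable p] : (if p then (1 : ℝ) else 0) ≤ 1 := by split_ifs <;> norm_num

open Classical in
/-- few exceptions for a given set of columns -/
lemma few_bad {α β : Type} (M ε f κ : ℝ) (hM : 1 ≤ M) (hε : 0 < ε) (hε1 : ε ≤ 1) (hf : 0 < f) (hκ : 0 < κ) :
    ∃ κ' δ₂ : ℝ, 0 < κ' ∧ 0 < δ₂ ∧ ∀ (A : Finset α) (C : Finset β) (W : α → β → ℝ), (∀ a ∈ A, ∀ c ∈ C, 0 ≤ W a c) → Cut A C W δ₂ →
    ∑ a ∈ A, ∑ c ∈ C, W a c ^ 2 ≤ M * (A.card * C.card) → ∀ E : Finset β, E ⊆ C → κ * C.card ≤ E.card → ∀ s : Bool,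
    ((A.filter (fun a => ¬ (κ' * C.card ≤ ((E.filter (fun c => Pat W ε s a c)).card : ℝ)))).card : ℝ) ≤ f * A.card := by
  have hM0 : 0 < M := by linarith only [hM]
  obtain ⟨L, hL⟩ : ∃ L, L = 4 * M / (ε * κ * f) := ⟨_, rfl⟩
  have hL0 : 0 < L := by rw [hL]; positivity
  have hML : M / L = ε * κ * f / 4 := by rw [hL]; field_simp
  obtain ⟨κ', hκ'⟩ : ∃ κ', κ' = ε * κ / (4 * (1 + L)) := ⟨_, rfl⟩
  have hκ'0 : 0 < κ' := by rw [hκ']; positivity
  have hκ'L : (1 + L) * κ' = ε * κ / 4 := by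
    have : (1 + L) ≠ 0 := by positivity
    rw [hκ']; field_simp
  refine ⟨κ', ε * κ * f / 4, hκ'0, by positivity, fun A C W hW hcut hM2 E hE hEc s => ?_⟩
  obtain ⟨B, hB⟩ : ∃ B, B = A.filter (fun a => ¬ (κ' * C.card ≤ ((E.filter (fun c => Pat W ε s a c)).card : ℝ))) := ⟨_, rfl⟩
  rw [← hB]
  have hBA : B ⊆ A := by rw [hB]; exact filter_subset _ _
  have hBa : ∀ a ∈ B, ((E.filter (fun c => Pat W ε s a c)).card : ℝ) ≤ κ' * C.card := by
    intro a ha
    rw [hB, mem_filter, not_le] at ha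
    exact ha.2.le
  by_cases hC0 : C.card = 0
  · have : B = ∅ := by
      rw [hB, filter_eq_empty_iff]
      intro a _ h
      apply h
      rw [hC0]
      simp
    rw [this]
    simp only [card_empty, Nat.cast_zero]
    positivity
  have hCp : (0 : ℝ) < C.card := by exact_mod_cast Nat.pos_of_ne_zero hC0
  have hcutB := abs_le.1 (hcut B hBA E hE)
  have hεκ : 0 < ε * κ := mul_pos hε hκ
  -- it suffices to bound the cardinality times the gain
  suffices h : (B.card : ℝ) * (ε * κ / 2) * C.card ≤ ε * κ * f / 2 * (A.card * C.card) by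
    have h1 : (B.card : ℝ) * ((ε * κ / 2) * C.card) ≤ (f * A.card) * ((ε * κ / 2) * C.card) := by
      calc (B.card : ℝ) * ((ε * κ / 2) * C.card) = (B.card : ℝ) * (ε * κ / 2) * C.card := by ring
        _ ≤ ε * κ * f / 2 * (A.card * C.card) := h
        _ = (f * A.card) * ((ε * κ / 2) * C.card) := by ring
    exact le_of_mul_le_mul_right h1 (by positivity)
  cases s with
  | true =>
    have h1 : ∀ a ∈ B, ∑ c ∈ E, (W a c - 1) ≤ (ε * κ / 4 - ε * κ) * C.card + (∑ c ∈ C, W a c ^ 2) / L := by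
      intro a ha
      have h2 : ∀ c ∈ E, W a c - 1 ≤ -ε + W a c ^ 2 / L + (if Pat W ε true a c then (1 + L) else 0) := by
        intro c hc
        have hsq : 0 ≤ W a c ^ 2 / L := by positivity
        split_ifs with h3
        · have := le_sq_div (w := W a c) hL0
          linarith only [this, hε1]
        · have h4 : W a c < 1 - ε := by
            by_contra h5
            push Not at h5
            exact h3 ⟨fun _ => h5, fun h => by simp at h⟩
          linarith only [h4, hsq]
      refine (sum_le_sum h2).trans ?_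
      rw [sum_add_distrib, sum_add_distrib, sum_const, nsmul_eq_mul, ← sum_filter, sum_const, nsmul_eq_mul, ← sum_div]
      have h3 : (∑ c ∈ E, W a c ^ 2) / L ≤ (∑ c ∈ C, W a c ^ 2) / L := by
        apply div_le_div_of_nonneg_right _ hL0.le
        exact sum_le_sum_of_subset_of_nonneg hE fun c _ _ => sq_nonneg _
      have h4 : ((E.filter (fun c => Pat W ε true a c)).card : ℝ) * (1 + L) ≤ κ' * C.card * (1 + L) :=
        mul_le_mul_of_nonneg_right (hBa a ha) (by positivity)
      have h5 : κ' * C.card * (1 + L) = ε * κ / 4 * C.card := by rw [← hκ'L]; ring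
      have h6 : ε * (κ * C.card) ≤ ε * E.card := mul_le_mul_of_nonneg_left hEc hε.le
      linarith only [h3, h4, h5, h6]
    have h2 : ∑ a ∈ B, ∑ c ∈ E, (W a c - 1) ≤ B.card * ((ε * κ / 4 - ε * κ) * C.card) + (M / L) * (A.card * C.card) := by
      refine (sum_le_sum h1).trans ?_
      rw [sum_add_distrib, sum_const, nsmul_eq_mul, ← sum_div]
      have h3 : (∑ a ∈ B, ∑ c ∈ C, W a c ^ 2) / L ≤ (M / L) * (A.card * C.card) := by
        rw [div_mul_eq_mul_div]
        apply div_le_div_of_nonneg_right _ hL0.le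
        exact (sum_le_sum_of_subset_of_nonneg hBA fun a _ _ => sum_nonneg fun c _ => sq_nonneg _).trans hM2
      linarith only [h3]
    rw [hML] at h2
    have h3 : 0 ≤ (B.card : ℝ) * (ε * κ / 4 * C.card) := by positivity
    linarith only [h2, h3, hcutB.1]
  | false =>
    have h1 : ∀ a ∈ B, ε * κ / 2 * C.card ≤ ∑ c ∈ E, (W a c - 1) := by
      intro a ha
      have h2 : ∀ c ∈ E, ε - (if Pat W ε false a c then (2 : ℝ) else 0) ≤ W a c - 1 := by
        intro c hc
        have hw := hW a (hBA ha) c (hE hc)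
        split_ifs with h3
        · linarith only [hw, hε1]
        · have h4 : 1 + ε < W a c := by
            by_contra h5
            push Not at h5
            exact h3 ⟨fun h => by simp at h, fun _ => h5⟩
          linarith only [h4]
      refine le_trans ?_ (sum_le_sum h2)
      rw [sum_sub_distrib, sum_const, nsmul_eq_mul, ← sum_filter, sum_const, nsmul_eq_mul]
      have h4 : ((E.filter (fun c => Pat W ε false a c)).card : ℝ) * 2 ≤ κ' * C.card * 2 :=
        mul_le_mul_of_nonneg_right (hBa a ha) (by norm_num)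
      have h5 : κ' ≤ ε * κ / 4 := by
        rw [← hκ'L]
        have : 0 ≤ L * κ' := by positivity
        linarith only [this]
      have h7 : κ' * C.card ≤ ε * κ / 4 * C.card := mul_le_mul_of_nonneg_right h5 hCp.le
      have h6 : ε * (κ * C.card) ≤ ε * E.card := mul_le_mul_of_nonneg_left hEc hε.le
      linarith only [h4, h7, h6]
    have h2 : (B.card : ℝ) * (ε * κ / 2 * C.card) ≤ ∑ a ∈ B, ∑ c ∈ E, (W a c - 1) := by
      refine le_trans (le_of_eq ?_) (sum_le_sum h1)
      rw [sum_const, nsmul_eq_mul]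
    have h3 : 0 ≤ ε * κ * f / 4 * (A.card * C.card) := by positivity
    linarith only [h2, h3, hcutB.2]

open Classical in
/-- **all patterns** for almost all tuples -/
theorem patterns (α β : Type) (ε M : ℝ) (hε : 0 < ε) (hε1 : ε ≤ 1) (hM : 1 ≤ M) (n : ℕ) : ∀ δ : ℝ, 0 < δ → ∃ κ δ₂ : ℝ, 0 < κ ∧ 0 < δ₂ ∧
    ∀ (A : Finset α) (C : Finset β) (W : Fin n → α → β → ℝ), (∀ j, ∀ a ∈ A, ∀ c ∈ C, 0 ≤ W j a c) → (∀ j, Cut A C (W j) δ₂) →
    (∀ j, ∑ a ∈ A, ∑ c ∈ C, W j a c ^ 2 ≤ M * (A.card * C.card)) →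
    (((Fintype.piFinset (fun _ : Fin n => A)).filter (fun a => ¬ ∀ s : Fin n → Bool,
      κ * C.card ≤ ((C.filter (fun c => ∀ j, Pat (W j) ε (s j) (a j) c)).card : ℝ))).card : ℝ) ≤ δ * (A.card : ℝ) ^ n := by
  induction n with
  | zero =>
    intro δ hδ
    refine ⟨1, 1, one_pos, one_pos, fun A C W _ _ _ => ?_⟩
    rw [filter_eq_empty_iff.2]
    · simp only [card_empty, Nat.cast_zero]
      positivity
    · intro a _ h
      apply h
      intro s
      rw [one_mul]
      apply Nat.cast_le.2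
      apply card_le_card
      intro c hc
      rw [mem_filter]
      exact ⟨hc, fun j => j.elim0⟩
  | succ n ih =>
    intro δ hδ
    have he : (2 : ℝ) ^ n * 2 * (δ / 2 ^ (n + 2)) = δ / 2 := by
      rw [pow_add]
      field_simp
    obtain ⟨κ, δ₁, hκ, hδ₁, h⟩ := ih (δ / 2) (half_pos hδ)
    obtain ⟨κ', δ₂, hκ', hδ₂, h'⟩ := few_bad (α := α) (β := β) M ε (δ / 2 ^ (n + 2)) κ hM hε hε1 (by positivity) hκ
    refine ⟨κ', min δ₁ δ₂, hκ', lt_min hδ₁ hδ₂, fun A C W hW hcut hM2 => ?_⟩
    have h1 := h A C (fun j => W j.succ) (fun j => hW j.succ) (fun j => Pool.Agent.Y851.PT.cut_mono (hcut j.succ) (min_le_left _ _))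
      (fun j => hM2 j.succ)
    have h2 := h' A C (W 0) (hW 0) (Pool.Agent.Y851.PT.cut_mono (hcut 0) (min_le_right _ _)) (hM2 0)
    obtain ⟨E, hE⟩ : ∃ E : (Fin n → Bool) → (Fin n → α) → Finset β,
      E = fun s t => C.filter (fun c => ∀ j : Fin n, Pat (W j.succ) ε (s j) (t j) c) := ⟨_, rfl⟩
    have hEs : ∀ s t, C.filter (fun c => ∀ j : Fin n, Pat (W j.succ) ε (s j) (t j) c) = E s t := fun s t => by rw [hE]
    rw [card_ind, PS.sum_cons]
    have key : ∀ t ∈ Fintype.piFinset (fun _ : Fin n => A), ∑ a ∈ A, (if ¬ ∀ s : Fin (n + 1) → Bool,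
        κ' * C.card ≤ ((C.filter (fun c => ∀ j, Pat (W j) ε (s j) ((Fin.cons a t : Fin (n + 1) → α) j) c)).card : ℝ) then (1 : ℝ) else 0) ≤
        δ / 2 * A.card + A.card * (if ¬ ∀ s : Fin n → Bool, κ * C.card ≤ ((E s t).card : ℝ) then 1 else 0) := by
      intro t ht
      by_cases hg : ∀ s : Fin n → Bool, κ * C.card ≤ ((E s t).card : ℝ)
      · rw [if_neg (not_not.2 hg), mul_zero, add_zero]
        rw [← card_ind]
        have hsub : A.filter (fun a => ¬ ∀ s : Fin (n + 1) → Bool,
            κ' * C.card ≤ ((C.filter (fun c => ∀ j, Pat (W j) ε (s j) ((Fin.cons a t : Fin (n + 1) → α) j) c)).card : ℝ)) ⊆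
            (univ : Finset ((Fin n → Bool) × Bool)).biUnion (fun q => A.filter (fun a => ¬ (κ' * C.card ≤
              (((E q.1 t).filter (fun c => Pat (W 0) ε q.2 a c)).card : ℝ)))) := by
          intro a ha
          rw [mem_filter] at ha
          obtain ⟨ha1, ha2⟩ := ha
          push Not at ha2
          obtain ⟨s, hs⟩ := ha2
          rw [mem_biUnion]
          refine ⟨(Fin.tail s, s 0), mem_univ _, ?_⟩
          rw [mem_filter]
          refine ⟨ha1, ?_⟩
          rw [not_le]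
          refine lt_of_le_of_lt ?_ hs
          apply Nat.cast_le.2
          apply card_le_card
          intro c hc
          rw [mem_filter, ← hEs, mem_filter] at hc
          rw [mem_filter]
          refine ⟨hc.1.1, fun j => ?_⟩
          refine Fin.cases ?_ (fun i => ?_) j
          · rw [Fin.cons_zero]; exact hc.2
          · rw [Fin.cons_succ]; exact hc.1.2 i
        have hc1 : ((A.filter (fun a => ¬ ∀ s : Fin (n + 1) → Bool,
            κ' * C.card ≤ ((C.filter (fun c => ∀ j, Pat (W j) ε (s j) ((Fin.cons a t : Fin (n + 1) → α) j) c)).card : ℝ))).card : ℝ) ≤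
            ∑ q : (Fin n → Bool) × Bool, ((A.filter (fun a => ¬ (κ' * C.card ≤
              (((E q.1 t).filter (fun c => Pat (W 0) ε q.2 a c)).card : ℝ)))).card : ℝ) := by
          exact_mod_cast (card_le_card hsub).trans card_biUnion_le
        refine hc1.trans ?_
        have hc2 : ∀ q ∈ (univ : Finset ((Fin n → Bool) × Bool)), ((A.filter (fun a => ¬ (κ' * C.card ≤
              (((E q.1 t).filter (fun c => Pat (W 0) ε q.2 a c)).card : ℝ)))).card : ℝ) ≤ δ / 2 ^ (n + 2) * A.card := by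
          intro q _
          exact h2 (E q.1 t) (by rw [hE]; exact filter_subset _ _) (hg q.1) q.2
        refine (sum_le_sum hc2).trans (le_of_eq ?_)
        rw [sum_const, nsmul_eq_mul, Finset.card_univ, Fintype.card_prod, Fintype.card_fun, Fintype.card_bool, Fintype.card_fin]
        push_cast
        rw [← mul_assoc, he]
      · rw [if_pos hg, mul_one]
        have : ∑ a ∈ A, (if ¬ ∀ s : Fin (n + 1) → Bool,
          κ' * C.card ≤ ((C.filter (fun c => ∀ j, Pat (W j) ε (s j) ((Fin.cons a t : Fin (n + 1) → α) j) c)).card : ℝ) then (1 : ℝ) else 0) ≤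
            ∑ a ∈ A, (1 : ℝ) := sum_le_sum fun a _ => ind_le_one _
        rw [sum_const, nsmul_eq_mul, mul_one] at this
        have h3 : 0 ≤ δ / 2 * (A.card : ℝ) := mul_nonneg (half_pos hδ).le (Nat.cast_nonneg _)
        linarith only [this, h3]
    refine (sum_le_sum key).trans ?_
    rw [sum_add_distrib, sum_const, nsmul_eq_mul, ← mul_sum, Fintype.card_piFinset, prod_const, Finset.card_univ, Fintype.card_fin]
    have h3 : ∑ t ∈ Fintype.piFinset (fun _ : Fin n => A), (if ¬ ∀ s : Fin n → Bool, κ * C.card ≤ ((E s t).card : ℝ) then (1 : ℝ) else 0) ≤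
        δ / 2 * (A.card : ℝ) ^ n := by
      refine le_trans (le_of_eq ?_) h1
      rw [card_ind]
      rw [hE]
    have h4 := mul_le_mul_of_nonneg_left h3 (Nat.cast_nonneg A.card : (0 : ℝ) ≤ _)
    push_cast
    calc (A.card : ℝ) ^ n * (δ / 2 * A.card) + A.card * ∑ t ∈ Fintype.piFinset (fun _ : Fin n => A),
          (if ¬ ∀ s : Fin n → Bool, κ * C.card ≤ ((E s t).card : ℝ) then (1 : ℝ) else 0)
        ≤ (A.card : ℝ) ^ n * (δ / 2 * A.card) + A.card * (δ / 2 * (A.card : ℝ) ^ n) := by linarith only [h4]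
      _ = δ * (A.card : ℝ) ^ (n + 1) := by ring

end Pool.Agent.Y851.DK
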