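import Pool.Agent.Y851.DK.F1

/-! Sign patterns of the numbers of primes in windows, for dilates. -/

set_option autoImplicit false

namespace Pool.Agent.Y851.DK

open Finset Filter
open Pool.Agent.Y851.PS Pool.Agent.Y851.PT

/-- a set spread at the logarithmic scale is spread at all larger scales -/
lemma spread_up {B lam θ X H : ℝ} {C : Finset ℝ} (h : SpH B (Real.log X) θ X C) (hX : 1 < X) (hlam : 0 < lam) (hlam1 : lam ≤ 1)
    (hB : 0 ≤ B) (hH : lam * Real.log X ≤ H) : SpH (2 * B / lam) H θ X C := by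
  have hX0 : 0 < X := by linarith only [hX]
  have hlog : 0 < Real.log X := Real.log_pos hX
  have hXθ : 0 < X ^ θ := Real.rpow_pos_of_pos hX0 θ
  have hCc : (0 : ℝ) ≤ C.card := Nat.cast_nonneg _
  refine ⟨h.pos, h.le, fun u => ?_⟩
  have hH0 : 0 < H := lt_of_lt_of_le (mul_pos hlam hlog) hH
  by_cases hc : Real.log X ≤ H
  · have h1 := SpH.long h hX hlog hB u (H / X ^ θ) (div_le_div_of_nonneg_right hc hXθ.le)
    refine h1.trans ?_
    have e : 2 * B * (H / X ^ θ) * X ^ (θ - 1) * (C.card : ℝ) = 2 * B * (H / X) * C.card := by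
      rw [Real.rpow_sub hX0, Real.rpow_one]
      field_simp
    rw [e]
    apply mul_le_mul_of_nonneg_right _ hCc
    apply mul_le_mul_of_nonneg_right _ (by positivity)
    rw [le_div_iff₀ hlam]
    calc 2 * B * lam ≤ 2 * B * 1 := mul_le_mul_of_nonneg_left hlam1 (by positivity)
      _ = 2 * B := by ring
  · push Not at hc
    have h1 := h.spread u
    have h2 : ((C.filter (fun c => u ≤ c ∧ c ≤ u + H / X ^ θ)).card : ℝ) ≤
        ((C.filter (fun c => u ≤ c ∧ c ≤ u + Real.log X / X ^ θ)).card : ℝ) := by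
      apply Nat.cast_le.2
      apply card_le_card
      intro c hc'
      rw [mem_filter] at hc' ⊢
      exact ⟨hc'.1, hc'.2.1, hc'.2.2.trans (by
        have := div_le_div_of_nonneg_right hc.le hXθ.le
        linarith only [this])⟩
    refine h2.trans (h1.trans ?_)
    apply mul_le_mul_of_nonneg_right _ hCc
    have h3 : Real.log X ≤ H / lam := by rw [le_div_iff₀ hlam, mul_comm]; exact hH
    calc B * (Real.log X / X) ≤ B * ((H / lam) / X) := by gcongr
      _ ≤ 2 * (B * ((H / lam) / X)) := by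
          have : 0 ≤ B * ((H / lam) / X) := by positivity
          linarith only [this]
      _ = 2 * B / lam * (H / X) := by field_simp

open Classical in
/-- **Sign patterns.** -/
theorem joint (θ lam ϱ δ B : ℝ) (n : ℕ) (hn : 1 ≤ n) (hθ : 0 < θ) (hlam : 0 < lam) (hlam1 : lam ≤ 1) (hϱ : 0 < ϱ) (hδ : 0 < δ) (hδ1 : δ ≤ 1)
    (hB : 1 ≤ B) :
    ∃ κ : ℝ, 0 < κ ∧ ∀ᶠ X : ℝ in atTop, ∀ H : Fin n → ℝ, (∀ j, lam * Real.log X ≤ H j ∧ H j ≤ X ^ (1 - ϱ)) →
    ∀ (A : Finset ℕ) (C : Finset ℝ), Adm δ θ X A → SpH B (Real.log X) θ X C →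
    (((Fintype.piFinset (fun _ : Fin n => C)).filter (fun y => ¬ ∀ s : Fin n → Bool,
      κ * A.card ≤ ((A.filter (fun a : ℕ => ∀ j, (s j = true → 1 - δ ≤ ZH (H j) (a * y j)) ∧
        (s j = false → ZH (H j) (a * y j) ≤ 1 + δ))).card : ℝ))).card : ℝ) ≤ δ * (C.card : ℝ) ^ n ∧
    (((Fintype.piFinset (fun _ : Fin n => A)).filter (fun a => ¬ ∀ s : Fin n → Bool,
      κ * C.card ≤ ((C.filter (fun y => ∀ j, (s j = true → 1 - δ ≤ ZH (H j) (a j * y)) ∧
        (s j = false → ZH (H j) (a j * y) ≤ 1 + δ))).card : ℝ))).card : ℝ) ≤ δ * (A.card : ℝ) ^ n := by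
  have hB2 : 1 ≤ 2 * B / lam := by
    rw [le_div_iff₀ hlam]
    linarith only [hB, hlam1]
  obtain ⟨f, hf⟩ : ∃ f, f = min (1 / 2) (δ / (2 * (n + 1))) := ⟨_, rfl⟩
  have hn0 : (0 : ℝ) < n + 1 := by positivity
  have hf0 : 0 < f := by rw [hf]; exact lt_min (by norm_num) (by positivity)
  have hf1 : f ≤ 1 / 2 := by rw [hf]; exact min_le_left _ _
  have hf2 : n * f ≤ δ / 2 := by
    have h1 : f ≤ δ / (2 * (n + 1)) := by rw [hf]; exact min_le_right _ _
    calc n * f ≤ (n + 1) * f := by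
          have : (n : ℝ) ≤ n + 1 := by linarith only
          exact mul_le_mul_of_nonneg_right this hf0.le
      _ ≤ (n + 1) * (δ / (2 * (n + 1))) := mul_le_mul_of_nonneg_left h1 hn0.le
      _ = δ / 2 := by field_simp
  obtain ⟨κ₁, M, hκ₁, hM, hbase⟩ := base θ lam ϱ δ (2 * B / lam) f hθ hlam hϱ hδ hB2 hf0
  obtain ⟨κa, δa, hκa, hδa, hga⟩ := patterns ℝ ℕ δ M hδ hδ1 hM n δ hδ
  obtain ⟨κb, δb, hκb, hδb, hgb⟩ := patterns ℕ ℝ δ M hδ hδ1 hM n (δ / 2) (half_pos hδ)
  obtain ⟨δ', hδ'⟩ : ∃ δ', δ' = min (δa / 2) (δb / 2) := ⟨_, rfl⟩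
  have hδ'0 : 0 < δ' := by rw [hδ']; exact lt_min (by positivity) (by positivity)
  have hδ'a : 2 * δ' ≤ δa := by
    have : δ' ≤ δa / 2 := by rw [hδ']; exact min_le_left _ _
    linarith only [this]
  have hδ'b : 2 * δ' ≤ δb := by
    have : δ' ≤ δb / 2 := by rw [hδ']; exact min_le_right _ _
    linarith only [this]
  refine ⟨min (κa / 2) κb, lt_min (half_pos hκa) hκb, ?_⟩
  filter_upwards [hbase δ' hδ'0, eventually_gt_atTop (1 : ℝ)] with X h2 hX H hH A C hA hC
  have hZ0 : ∀ (j : Fin n) (x : ℝ), 0 ≤ ZH (H j) x := fun j x =>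
    ZH_nonneg ((mul_pos hlam (Real.log_pos hX)).le.trans (hH j).1) _
  -- the large elements
  obtain ⟨A1, hA1⟩ : ∃ A1, A1 = A.filter (fun a : ℕ => κ₁ * X ^ θ ≤ (a : ℝ)) := ⟨_, rfl⟩
  have hA1A : A1 ⊆ A := by rw [hA1]; exact filter_subset _ _
  -- few small elements: use the length `log X`, which is at least `lam * log X`
  have hfac : ∀ j, Cut A C (fun a c => ZH (H j) (a * c)) δ' ∧ ((A.filter (fun a : ℕ => (a : ℝ) < κ₁ * X ^ θ)).card : ℝ) ≤ f * A.card ∧
      ∀ a ∈ A, κ₁ * X ^ θ ≤ (a : ℝ) → ∑ c ∈ C, ZH (H j) (a * c) ^ 2 ≤ M * C.card := fun j =>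
    (h2 (H j) (hH j).1 (hH j).2 A C hA (spread_up hC hX hlam hlam1 (by linarith only [hB]) (hH j).1)).2
  obtain ⟨-, hs, -⟩ := hfac ⟨0, hn⟩
  have hA1c : (1 - f) * A.card ≤ (A1.card : ℝ) := by
    have h3 : A1.card + (A.filter (fun a : ℕ => (a : ℝ) < κ₁ * X ^ θ)).card = A.card := by
      rw [hA1, ← card_filter_add_card_filter_not (s := A) (fun a : ℕ => κ₁ * X ^ θ ≤ (a : ℝ))]
      congr 2
      apply filter_congr
      intro a _
      rw [not_le]
    have h4 : (A1.card : ℝ) + ((A.filter (fun a : ℕ => (a : ℝ) < κ₁ * X ^ θ)).card : ℝ) = A.card := by exact_mod_cast h3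
    linarith only [h4, hs]
  have hA1h : (A.card : ℝ) ≤ 2 * A1.card := by
    have h3 : (1 - 1 / 2) * (A.card : ℝ) ≤ (1 - f) * A.card := mul_le_mul_of_nonneg_right (by linarith only [hf1]) (Nat.cast_nonneg _)
    linarith only [h3, hA1c]
  have hcut1 : ∀ j, Cut A1 C (fun a c => ZH (H j) (a * c)) (2 * δ') := fun j => cut_restrict (hfac j).1 hδ'0.le hA1A hA1h
  have hM1 : ∀ j, ∑ a ∈ A1, ∑ c ∈ C, ZH (H j) (a * c) ^ 2 ≤ M * (A1.card * C.card) := by
    intro j
    have h3 : ∀ a ∈ A1, ∑ c ∈ C, ZH (H j) (a * c) ^ 2 ≤ M * C.card := by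
      intro a ha
      rw [hA1, mem_filter] at ha
      exact (hfac j).2.2 a ha.1 ha.2
    refine (sum_le_sum h3).trans (le_of_eq ?_)
    rw [sum_const, nsmul_eq_mul]; ring
  constructor
  · have h3 := hga C A1 (fun j c a => ZH (H j) (a * c)) (fun j c _ a _ => hZ0 j _) (fun j => (cut_mono (hcut1 j) hδ'a).swap)
      (fun j => by rw [sum_comm, mul_comm (C.card : ℝ)]; exact hM1 j)
    refine le_trans ?_ h3
    apply Nat.cast_le.2
    apply card_le_card
    intro y hy
    rw [mem_filter] at hy ⊢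
    refine ⟨hy.1, fun hcon => hy.2 fun s => ?_⟩
    have h4 : min (κa / 2) κb * (A.card : ℝ) ≤ κa * A1.card := by
      calc min (κa / 2) κb * (A.card : ℝ) ≤ κa / 2 * A.card := mul_le_mul_of_nonneg_right (min_le_left _ _) (Nat.cast_nonneg _)
        _ ≤ κa / 2 * (2 * A1.card) := mul_le_mul_of_nonneg_left hA1h (half_pos hκa).le
        _ = κa * A1.card := by ring
    refine h4.trans ((hcon s).trans ?_)
    apply Nat.cast_le.2
    apply card_le_card
    intro a ha
    rw [mem_filter] at ha ⊢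
    exact ⟨hA1A ha.1, fun j => ha.2 j⟩
  · have h3 := hgb A1 C (fun j a c => ZH (H j) (a * c)) (fun j a _ c _ => hZ0 j _) (fun j => cut_mono (hcut1 j) hδ'b) hM1
    have h4 := tuples_lift A A1 hA1A n f (δ / 2) (by linarith only [hf1]) hA1c (half_pos hδ).le (fun a => ¬ ∀ s : Fin n → Bool,
      min (κa / 2) κb * C.card ≤ ((C.filter (fun y => ∀ j, (s j = true → 1 - δ ≤ ZH (H j) (a j * y)) ∧
        (s j = false → ZH (H j) (a j * y) ≤ 1 + δ))).card : ℝ)) (by
        refine le_trans ?_ h3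
        apply Nat.cast_le.2
        apply card_le_card
        intro y hy
        rw [mem_filter] at hy ⊢
        refine ⟨hy.1, fun hcon => hy.2 fun s => ?_⟩
        refine (mul_le_mul_of_nonneg_right (min_le_right _ _) (Nat.cast_nonneg _)).trans ((hcon s).trans ?_)
        apply Nat.cast_le.2
        apply card_le_card
        intro c hc
        rw [mem_filter] at hc ⊢
        exact ⟨hc.1, fun j => hc.2 j⟩)
    refine h4.trans ?_
    apply mul_le_mul_of_nonneg_right _ (pow_nonneg (Nat.cast_nonneg _) n)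
    linarith only [hf2]

end Pool.Agent.Y851.DK
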