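import Mathlib

/-! Project DK (helper851): statements of the jobs. -/

set_option autoImplicit false

namespace Pool.Agent.Y851.DK

open Finset Filter

/-- the sum of `1 / p` over the prime factors of `m` (it is `0` for `m = 0`) -/
noncomputable def sg (m : ℕ) : ℝ := ∑ p ∈ m.primeFactors, (1 : ℝ) / p

/-- the sum of `1 / p` over the prime factors of `m` which do not divide `α` -/
noncomputable def sgn (α m : ℕ) : ℝ := ∑ p ∈ m.primeFactors.filter (fun p => ¬ p ∣ α), (1 : ℝ) / p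

/-- DK-AVG -/
def P_AVG : Prop := ∀ c η : ℝ, 0 < c → 0 < η → ∃ C : ℝ, 1 ≤ C ∧ ∀ᶠ X : ℝ in atTop, ∀ M : ℕ, X ^ η ≤ M → (M : ℝ) ≤ X →
  ∀ α β : ℕ, 1 ≤ α → (α : ℝ) ≤ X ^ 2 → (β : ℝ) ≤ X ^ 2 →
  ∑ x ∈ Icc 1 M, Real.exp (c * sgn α (((α : ℤ) * (x : ℤ) - (β : ℤ)).natAbs)) ≤ C * M

/-- DK-SV: upper bound sieve for systems of linear forms, uniform in the forms, with the exact order of magnitude -/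
def P_SV : Prop := ∀ r : ℕ, ∃ C : ℝ, 1 ≤ C ∧ ∀ᶠ Y : ℝ in atTop, ∀ F : Finset (ℤ × ℤ), F.card = r →
  (∀ f ∈ F, f.1 ≠ 0) → (∀ f ∈ F, ∀ g ∈ F, f ≠ g → f.1 * g.2 - g.1 * f.2 ≠ 0) →
  (((Icc 1 ⌊Y⌋₊).filter (fun n : ℕ => ∀ f ∈ F, (f.1 * (n : ℤ) + f.2).toNat.Prime)).card : ℝ) ≤
    C * Real.exp (C * (∑ f ∈ F, sg f.1.natAbs + ∑ f ∈ F, ∑ g ∈ F, sg (f.1 * g.2 - g.1 * f.2).natAbs)) * (Y / Real.log Y ^ r)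

/-- DK-MOM -/
def P_MOM : Prop := ∀ (k : ℕ) (c η T : ℝ), 0 < c → 0 < η → ∃ C : ℝ, 1 ≤ C ∧ ∀ᶠ X : ℝ in atTop, ∀ M : ℕ, X ^ η ≤ M → (M : ℝ) ≤ X →
  ∀ a : Fin k → ℕ, (∀ j, 1 ≤ a j ∧ (a j : ℝ) ≤ X ∧ sg (a j) ≤ T) →
  ∑ b ∈ Fintype.piFinset (fun _ : Fin k => Icc 1 M),
    Real.exp (c * (∑ j, sg (a j) + ∑ j, sg (b j) + ∑ i, ∑ j, sg (((a i : ℤ) * (b j : ℤ) - (a j : ℤ) * (b i : ℤ)).natAbs))) ≤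
    C * (M : ℝ) ^ k

/-- DK-SGA -/
def P_SGA : Prop := ∀ f δ : ℝ, 0 < f → 0 < δ → ∃ T : ℝ, 1 ≤ T ∧ ∀ (Q : ℝ) (A : Finset ℕ), (∀ a ∈ A, 1 ≤ a ∧ (a : ℝ) ≤ Q) →
  (δ * Q ≤ A.card ∨ ∀ a ∈ A, a.Prime) → ((A.filter (fun a => T < sg a)).card : ℝ) ≤ f * A.card

end Pool.Agent.Y851.DK
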